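import Pool.Agent.Y393.SG.Main

/-!
Project SG: admissible exponents and upper bounds for the number of edges.
-/

set_option autoImplicit false

namespace Pool.Agent.Y393.SG

open SimpleGraph Pool.Agent.H968R3 Pool.TH815.GR

/-- An admissible exponent bounds the number of edges of graphs of large girth. -/
theorem ex_of_adm {m l : ℕ} {α : ℝ} (hα : 0 < α) (hl : l ≤ 6 * m + 6)
    (h : Adm l (α / (1 + α))) :
    ∃ C : ℝ, 0 < C ∧ ∀ (n : ℕ) (G : SimpleGraph (Fin n)), ((2 * m : ℕ) : ℕ∞) < G.egirth →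
      (G.edgeSet.ncard : ℝ) ≤ C * (n : ℝ) ^ (1 + α) := by
  classical
  obtain ⟨C, hC, hadm⟩ := h
  set β : ℝ := α / (1 + α) with hβ
  have hβ0 : 0 < β := by positivity
  set L : ℕ := 6 * m + 7 with hL
  have hLpos : (0 : ℝ) < L := by rw [hL]; positivity
  set K : ℕ := 4 * (L * (2 * L + 1)) with hK
  set C' : ℝ := (20 * (L : ℝ) ^ 2 * C * (24 : ℝ) ^ β) ^ (1 + α) with hC'
  have hC'0 : 0 < C' := by positivity
  refine ⟨K + C', by positivity, fun n G hg => ?_⟩
  set e := G.edgeSet.ncard with he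
  have hee : G.edgeFinset.card = e := by
    rw [he, ← SimpleGraph.coe_edgeFinset, Set.ncard_coe_finset]
  rcases Nat.eq_zero_or_pos n with hn | hn
  · subst hn
    have h0 : e = 0 := by
      rw [← hee, Finset.card_eq_zero, Finset.eq_empty_iff_forall_notMem]
      intro x
      induction x with
      | _ a b => exact a.elim0
    rw [h0, Nat.cast_zero]
    positivity
  have hnr : (1 : ℝ) ≤ n := by exact_mod_cast hn
  have hn0 : (0 : ℝ) < n := by linarith
  have hnn : (n : ℝ) ≤ (n : ℝ) ^ (1 + α) := by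
    calc (n : ℝ) = (n : ℝ) ^ (1 : ℝ) := (Real.rpow_one _).symm
      _ ≤ (n : ℝ) ^ (1 + α) := Real.rpow_le_rpow_of_exponent_le hnr (by linarith)
  rcases Nat.lt_or_ge e (K * n) with hsm | hbig
  · have h1 : (e : ℝ) ≤ K * n := by exact_mod_cast hsm.le
    have h2 : (K : ℝ) * n ≤ K * (n : ℝ) ^ (1 + α) :=
      mul_le_mul_of_nonneg_left hnn (Nat.cast_nonneg _)
    have h3 : 0 ≤ C' * (n : ℝ) ^ (1 + α) := by positivity
    calc (e : ℝ) ≤ K * (n : ℝ) ^ (1 + α) + C' * (n : ℝ) ^ (1 + α) := by linarith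
      _ = _ := by ring
  · -- many edges
    set t := e / (4 * n) with ht
    have ht1 : L * (2 * L + 1) ≤ t := by
      rw [ht, Nat.le_div_iff_mul_le (by omega)]
      calc L * (2 * L + 1) * (4 * n) = K * n := by rw [hK]; ring
        _ ≤ e := hbig
    have hLL : 0 < L * (2 * L + 1) := Nat.mul_pos (by omega) (by omega)
    obtain ⟨q, hq, htq, hq2⟩ := Nat.exists_prime_lt_and_le_two_mul t (by omega)
    have hq4 : e < q * (4 * n) := by
      have h1 : e < (t + 1) * (4 * n) := by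
        have h3 := Nat.lt_div_mul_add (a := e) (b := 4 * n) (by omega)
        rw [← ht] at h3
        have h4 : (t + 1) * (4 * n) = t * (4 * n) + 4 * n := by ring
        omega
      calc e < (t + 1) * (4 * n) := h1
        _ ≤ q * (4 * n) := Nat.mul_le_mul_right _ htq
    have hqe : q * (2 * n) ≤ e := by
      calc q * (2 * n) ≤ 2 * t * (2 * n) := Nat.mul_le_mul_right _ hq2
        _ = t * (4 * n) := by ring
        _ ≤ e := Nat.div_mul_le_self _ _
    set k := (q / L - 1) / (2 * L) with hk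
    have hqL : 2 * L + 1 ≤ q / L := by
      rw [Nat.le_div_iff_mul_le (by omega)]
      calc (2 * L + 1) * L = L * (2 * L + 1) := by ring
        _ ≤ t := ht1
        _ ≤ q := htq.le
    have hk1 : 1 ≤ k := by
      rw [hk, Nat.le_div_iff_mul_le (by omega)]
      omega
    set D := 2 * L * k + 1 with hD
    have hDq : D ≤ q / L := by
      have h1 : k * (2 * L) ≤ q / L - 1 := Nat.div_mul_le_self _ _
      have h2 : 2 * L * k = k * (2 * L) := by ring
      omega
    have hdq : L * D ≤ q := by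
      calc L * D ≤ L * (q / L) := Nat.mul_le_mul_left _ hDq
        _ ≤ q := Nat.mul_div_le _ _
    have hqk : q ≤ 5 * L ^ 2 * k := by
      have h1 : q < L * (q / L + 1) := Nat.lt_mul_div_succ q (by omega)
      have h2 : q / L - 1 < 2 * L * (k + 1) := by
        have h5 := Nat.lt_mul_div_succ (q / L - 1) (by omega : 0 < 2 * L)
        rw [← hk] at h5
        exact h5
      have h3 : q / L + 1 ≤ 2 * L * (k + 1) + 1 := by omega
      have h4 : 2 * L * (k + 1) + 1 ≤ 5 * L * k := by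
        have : 7 ≤ L := by omega
        nlinarith
      calc q ≤ L * (q / L + 1) := h1.le
        _ ≤ L * (5 * L * k) := Nat.mul_le_mul_left _ (h3.trans h4)
        _ = 5 * L ^ 2 * k := by ring
    have hcyc := (egirth_iff G _).1 hg
    obtain ⟨M, H, hM, hMq, hHg, hb1, hb2, hreg⟩ := regular_of_dense G hcyc q (L * D) hq hdq (by
      rw [Fintype.card_fin, hee]
      have h1 : 1 ≤ q := hq.one_lt.le
      calc (q - 1) * n < q * n := Nat.mul_lt_mul_of_pos_right (by omega) hn
        _ ≤ q * (2 * n) := Nat.mul_le_mul_left _ (by omega)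
        _ ≤ e := hqe)
    rw [hee] at hMq
    obtain ⟨φ, hφ⟩ := exists_label H L D (by omega) hreg
    have hcard : Nat.card (Fin M ⊕ Fin M) = 2 * M := by
      rw [Nat.card_eq_fintype_card, Fintype.card_sum, Fintype.card_fin]
      ring
    have : Nonempty (Fin M ⊕ Fin M) := ⟨Sum.inl ⟨0, hM⟩⟩
    have : NeZero L := ⟨by omega⟩
    have hgir : (l : ℕ∞) ≤ (blow H L φ).egirth :=
      Pool.Agent.Y587.SG.t_GIR _ H L φ (2 * m + 2) l (by omega) (egirth_bip hHg hb1 hb2)
        (by omega) (by omega)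
    have hedg : (blow H L φ).edgeSet.ncard ≤ 12 * e := by
      have h1 := Pool.Agent.Y395.SG.t_EDG _ H L D φ (by omega) hφ
      rw [hcard] at h1
      calc (blow H L φ).edgeSet.ncard ≤ 2 * M * L * (2 * D + 1) := h1
        _ ≤ 2 * M * L * (3 * D) := Nat.mul_le_mul_left _ (by omega)
        _ = 6 * (M * (L * D)) := by ring
        _ ≤ 6 * (M * q) := by gcongr
        _ ≤ 6 * (2 * e) := by gcongr
        _ = 12 * e := by ring
    have hemb := emb _ (blow H L φ) (24 * e) (by omega)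
    have hncol := Pool.Agent.Y395.SG.t_COL _ H L D k φ (by omega) ⟨3 * m + 3, by omega⟩ hφ
      (by omega)
    have hepos : 1 ≤ e := by
      have h1 : 0 < q * (2 * n) := Nat.mul_pos hq.pos (by omega)
      omega
    have hcol := hadm (24 * e) (by omega) _ (blow H L φ) hgir hemb
    have hlt : (k : ℝ) ≤ C * (24 * (e : ℝ)) ^ β := by
      by_contra hcon
      push Not at hcon
      apply hncol
      refine zeroCol_mono ?_ hcol
      have h1 : C * (((24 * e : ℕ) : ℝ)) ^ β ≤ k := by push_cast; exact hcon.le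
      exact Nat.floor_le_of_le h1
    have he0 : (0 : ℝ) < e := by exact_mod_cast hepos
    have h1 : (e : ℝ) ≤ 20 * (L : ℝ) ^ 2 * n * k := by
      have h2 : e ≤ 5 * L ^ 2 * k * (4 * n) :=
        hq4.le.trans (Nat.mul_le_mul_right _ hqk)
      have h3 : (e : ℝ) ≤ 5 * (L : ℝ) ^ 2 * k * (4 * n) := by exact_mod_cast h2
      linarith
    have h2 : (e : ℝ) ≤ 20 * (L : ℝ) ^ 2 * C * (24 : ℝ) ^ β * n * (e : ℝ) ^ β := by
      calc (e : ℝ) ≤ 20 * (L : ℝ) ^ 2 * n * k := h1
        _ ≤ 20 * (L : ℝ) ^ 2 * n * (C * (24 * (e : ℝ)) ^ β) :=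
            mul_le_mul_of_nonneg_left hlt (by positivity)
        _ = _ := by rw [Real.mul_rpow (by norm_num) he0.le]; ring
    have h3 : (e : ℝ) ^ (1 - β) ≤ 20 * (L : ℝ) ^ 2 * C * (24 : ℝ) ^ β * n := by
      have h4 : (e : ℝ) ^ (1 - β) * (e : ℝ) ^ β = e := by
        rw [← Real.rpow_add he0]
        have : 1 - β + β = 1 := by ring
        rw [this, Real.rpow_one]
      have h5 : (e : ℝ) ^ (1 - β) * (e : ℝ) ^ β ≤
          20 * (L : ℝ) ^ 2 * C * (24 : ℝ) ^ β * n * (e : ℝ) ^ β := by rw [h4]; exact h2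
      exact le_of_mul_le_mul_right h5 (by positivity)
    have h4 : (e : ℝ) ≤ C' * (n : ℝ) ^ (1 + α) := by
      calc (e : ℝ) = ((e : ℝ) ^ (1 - β)) ^ (1 + α) := by
            rw [← Real.rpow_mul he0.le]
            have : (1 - β) * (1 + α) = 1 := by rw [hβ]; field_simp; ring
            rw [this, Real.rpow_one]
        _ ≤ (20 * (L : ℝ) ^ 2 * C * (24 : ℝ) ^ β * n) ^ (1 + α) :=
            Real.rpow_le_rpow (by positivity) h3 (by positivity)
        _ = C' * (n : ℝ) ^ (1 + α) := by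
            rw [hC', Real.mul_rpow (by positivity) hn0.le]
    have h5 : 0 ≤ (K : ℝ) * (n : ℝ) ^ (1 + α) := by positivity
    calc (e : ℝ) ≤ K * (n : ℝ) ^ (1 + α) + C' * (n : ℝ) ^ (1 + α) := by linarith
      _ = _ := by ring

/-- Admissible exponents correspond to upper bounds for Turán numbers of girth. -/
theorem adm_iff_ex {m l : ℕ} {α : ℝ} (hm : 1 ≤ m) (hα : 0 < α) (hl : 6 * m + 1 ≤ l)
    (hl2 : l ≤ 6 * m + 6) :
    Adm l (α / (1 + α)) ↔ ∃ C : ℝ, 0 < C ∧ ∀ (n : ℕ) (G : SimpleGraph (Fin n)),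
      ((2 * m : ℕ) : ℕ∞) < G.egirth → (G.edgeSet.ncard : ℝ) ≤ C * (n : ℝ) ^ (1 + α) :=
  ⟨ex_of_adm hα hl2, fun ⟨_, hC, h⟩ => adm_of_ex hm hα hC hl h⟩

end Pool.Agent.Y393.SG
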