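import Pool.Agent.H968R3.SurfDefs

/-!
Project SG: `(0,k)`-colourings of graphs of large girth on surfaces and the girth conjecture.
Definitions and statements of the parts.
-/

set_option autoImplicit false

namespace Pool.Agent.Y393.SG

open SimpleGraph Pool.Agent.H968R3

/-! ### Surfaces with vertices in `ℕ` -/

/-- the number of members of `T` that contain `x` and `y` -/
def cnt (T : Finset (Finset ℕ)) (x y : ℕ) : ℕ := (T.filter (fun t => x ∈ t ∧ y ∈ t)).card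

/-- the points of the members of `T` -/
def vs (T : Finset (Finset ℕ)) : Finset ℕ := T.biUnion id

/-- `T` is the set of triangles of a triangulated closed connected surface whose vertex set
is `vs T`. -/
structure Surf (T : Finset (Finset ℕ)) : Prop where
  nonempty : T.Nonempty
  card_eq : ∀ t ∈ T, t.card = 3
  edge : ∀ x y, (skel T).Adj x y → cnt T x y = 2
  link : ∀ w x y, (skel T).Adj w x → (skel T).Adj w y → (link T w).Reachable x y
  conn : ∀ x ∈ vs T, ∀ y ∈ vs T, (skel T).Reachable x y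

/-- Subdividing a triangle by a new vertex `c`. -/
def S_SUB : Prop :=
  ∀ T : Finset (Finset ℕ), Surf T → ∀ t ∈ T, ∀ c : ℕ, c ∉ vs T →
    ∃ T' : Finset (Finset ℕ), Surf T' ∧ vs T' = insert c (vs T) ∧ T'.card = T.card + 2 ∧
      (∀ x y, (skel T).Adj x y → (skel T').Adj x y) ∧
      (∀ x y, x ≠ c → y ≠ c → (skel T').Adj x y → (skel T).Adj x y) ∧
      (∀ x, (skel T').Adj c x ↔ x ∈ t) ∧
      (∀ s ∈ T, s ≠ t → s ∈ T') ∧
      (∀ x ∈ t, ∀ y ∈ t, x ≠ y → ({c, x, y} : Finset ℕ) ∈ T')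

/-- Joining two triangles without common neighbours by a tube, which contains the edge `x y`. -/
def S_HAN : Prop :=
  ∀ T : Finset (Finset ℕ), Surf T → ∀ t₁ ∈ T, ∀ t₂ ∈ T,
    (∀ x ∈ t₁, ∀ y ∈ t₂, x ≠ y ∧ ¬ (skel T).Adj x y) → ∀ x ∈ t₁, ∀ y ∈ t₂,
      ∃ T' : Finset (Finset ℕ), Surf T' ∧ vs T' = vs T ∧ T'.card = T.card + 4 ∧
        (∀ a b, (skel T).Adj a b → (skel T').Adj a b) ∧ (skel T').Adj x y

/-- A graph with `e` edges embeds on a surface of Euler genus `g` whenever `g ≥ 2 e`. -/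
def S_EMB : Prop :=
  ∀ (V : Type) [Finite V] (G : SimpleGraph V) (g : ℕ), 2 * G.edgeSet.ncard ≤ g →
    EmbedsEulerGenus G g

/-! ### The blown up graph -/

/-- Replace every vertex `i` of `H` by a cycle `(i, s)`, `s ∈ ℤ/L`, and every edge `ij` by a path
with three edges `(i, φ i j), [i, j], [j, i], (j, φ j i)`. -/
def blow {A : Type} (H : SimpleGraph A) (L : ℕ) (φ : A → A → ZMod L) :
    SimpleGraph ((A × ZMod L) ⊕ (A × A)) where
  Adj x y := match x, y with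
    | Sum.inl (i, s), Sum.inl (j, t) => i = j ∧ s ≠ t ∧ (t = s + 1 ∨ s = t + 1)
    | Sum.inl (i, s), Sum.inr (a, b) => a = i ∧ H.Adj a b ∧ s = φ a b
    | Sum.inr (a, b), Sum.inl (i, s) => a = i ∧ H.Adj a b ∧ s = φ a b
    | Sum.inr (a, b), Sum.inr (c, d) => H.Adj a b ∧ c = b ∧ d = a
  symm := ⟨by
    rintro (⟨i, s⟩ | ⟨a, b⟩) (⟨j, t⟩ | ⟨c, d⟩) h
    · exact ⟨h.1.symm, h.2.1.symm, h.2.2.symm⟩
    · exact h
    · exact h
    · obtain ⟨h1, rfl, rfl⟩ := h
      exact ⟨h1.symm, rfl, rfl⟩⟩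
  loopless := ⟨by
    rintro (⟨i, s⟩ | ⟨a, b⟩) h
    · exact h.2.1 rfl
    · obtain ⟨h1, h2, -⟩ := h
      exact h1.ne h2⟩

/-- girth of the blown up graph -/
def S_GIR : Prop :=
  ∀ (A : Type) [Finite A] (H : SimpleGraph A) (L : ℕ) (φ : A → A → ZMod L) (γ l : ℕ),
    3 ≤ L → (γ : ℕ∞) ≤ H.egirth → l ≤ L → l ≤ 3 * γ → (l : ℕ∞) ≤ (blow H L φ).egirth

/-- the blown up graph is not `(0,k)`-colourable -/
def S_COL : Prop :=
  ∀ (A : Type) [Finite A] [Nonempty A] (H : SimpleGraph A) (L D k : ℕ) (φ : A → A → ZMod L),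
    3 ≤ L → Odd L → (∀ a s, {b | H.Adj a b ∧ φ a b = s}.ncard = D) → 2 * L * k < D →
    ¬ ZeroCol (blow H L φ) k

/-- number of edges of the blown up graph -/
def S_EDG : Prop :=
  ∀ (A : Type) [Finite A] (H : SimpleGraph A) (L D : ℕ) (φ : A → A → ZMod L),
    3 ≤ L → (∀ a s, {b | H.Adj a b ∧ φ a b = s}.ncard = D) →
    (blow H L φ).edgeSet.ncard ≤ Nat.card A * L * (2 * D + 1)

/-! ### The quotient of a critical graph -/

/-- Let `U` be a set of vertices of a graph of girth greater than `6 m` in which every vertex has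
at least two neighbours and every vertex of degree at most `k` has a neighbour of degree at
least `k + 2`. Then there is a graph of girth greater than `2 m` and minimum degree greater than
`k` on the set of vertices of `U` of degree greater than `k`. -/
def S_QUO : Prop :=
  ∀ (V : Type) [Finite V] (G : SimpleGraph V) (m k : ℕ) (U : Set V), 1 ≤ m →
    ((6 * m : ℕ) : ℕ∞) < G.egirth →
    (∀ v ∈ U, 2 ≤ {w | G.Adj v w ∧ w ∈ U}.ncard ∧ ({w | G.Adj v w ∧ w ∈ U}.ncard ≤ k →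
      ∃ x ∈ U, G.Adj v x ∧ k + 1 < {w | G.Adj x w ∧ w ∈ U}.ncard)) →
    ∃ Q : SimpleGraph {v : V // v ∈ U ∧ k < {w | G.Adj v w ∧ w ∈ U}.ncard},
      ((2 * m : ℕ) : ℕ∞) < Q.egirth ∧ ∀ v, k + 1 ≤ (Q.neighborSet v).ncard

/-! ### Dense graphs of girth eight -/

/-- The girth conjecture for `k = 3` -/
def S_W3 : Prop :=
  ∃ c : ℝ, 0 < c ∧ ∃ N : ℕ, ∀ n ≥ N, ∃ G : SimpleGraph (Fin n),
    ((6 : ℕ) : ℕ∞) < G.egirth ∧ c * (n : ℝ) ^ (1 + 1 / (3 : ℝ)) ≤ (G.edgeSet.ncard : ℝ)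

end Pool.Agent.Y393.SG
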