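import Pool.Agent.H968R3.Final
import Pool.Agent.TH815.GR12
import Pool.Agent.Y393.SG.Stm

/-!
Project SG: critical sets, counting, and the upper bound.
-/

set_option autoImplicit false

namespace Pool.Agent.Y393.SG

open SimpleGraph Pool.Agent.H968R3

variable {V : Type}

theorem zeroCol_of_univ {G : SimpleGraph V} {k : ℕ} (h : ZeroColOn G Set.univ k) : ZeroCol G k := by
  obtain ⟨I, -, h1, h2⟩ := h
  refine ⟨I, h1, ?_⟩
  intro v hv
  have := h2 v trivial hv
  simpa using this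

/-- A graph which is not `(0,k)`-colourable has a critical set. -/
theorem exists_crit [Finite V] {G : SimpleGraph V} {k : ℕ}
    (htri : ∀ a b c, G.Adj a b → G.Adj b c → G.Adj a c → False) (h : ¬ ZeroCol G k) :
    ∃ U : Set V, U.Nonempty ∧ ∀ v ∈ U, 2 ≤ degOn G U v ∧
      (degOn G U v ≤ k → ∃ x ∈ U, G.Adj v x ∧ k + 1 < degOn G U x) := by
  classical
  have hex : ∃ n : ℕ, ∃ U : Set V, U.ncard = n ∧ ¬ ZeroColOn G U k :=
    ⟨_, Set.univ, rfl, fun hc => h (zeroCol_of_univ hc)⟩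
  obtain ⟨U, hU, hUn⟩ := Nat.find_spec hex
  have hmin : ∀ v ∈ U, ZeroColOn G (U \ {v}) k := by
    intro v hv
    by_contra hcon
    have h1 := Nat.find_min' hex ⟨U \ {v}, rfl, hcon⟩
    have h2 : (U \ {v}).ncard < U.ncard := Set.ncard_sdiff_singleton_lt_of_mem hv (Set.toFinite _)
    omega
  have hne : U.Nonempty := by
    by_contra hcon
    rw [Set.not_nonempty_iff_eq_empty] at hcon
    subst hcon
    exact hUn ⟨∅, by simp, by simp, by simp⟩
  refine ⟨U, hne, fun v hv => ⟨?_, fun hd => ?_⟩⟩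
  · by_contra hcon
    exact hUn (reduce_one hv (by omega) (hmin v hv))
  · by_contra hcon
    push Not at hcon
    exact hUn (reduce_two hv htri hd hcon (hmin v hv))

/-- Counting in a critical set: there are few vertices of large degree. -/
theorem count_high [Finite V] {G : SimpleGraph V} {g k : ℕ} (hk : 27 ≤ k) {U : Set V}
    (hE : 5 * ((inside G U).edgeSet.ncard : ℤ) ≤ 7 * ((U.ncard : ℤ) + g))
    (hcr : ∀ v ∈ U, 2 ≤ degOn G U v ∧
      (degOn G U v ≤ k → ∃ x ∈ U, G.Adj v x ∧ k + 1 < degOn G U x)) :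
    (k + 1) * Nat.card {v : V // v ∈ U ∧ k < degOn G U v} ≤ 28 * g := by
  classical
  have := Fintype.ofFinite V
  have hdeg : ∀ v ∈ U, (inside G U).degree v = degOn G U v := by
    intro v hv
    unfold degOn
    rw [← card_neighborSet_eq_degree, ← Nat.card_eq_fintype_card, Nat.card_coe_set_eq]
    congr 1
    ext w
    constructor
    · rintro ⟨h1, -, h2⟩
      exact ⟨h1, h2⟩
    · rintro ⟨h1, h2⟩
      exact ⟨h1, hv, h2⟩
  have hsum := (inside G U).sum_degrees_eq_twice_card_edges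
  have hE2 : (inside G U).edgeFinset.card = (inside G U).edgeSet.ncard := by
    rw [← coe_edgeFinset, Set.ncard_coe_finset]
  have h1 : ∑ v ∈ U.toFinset, degOn G U v ≤ 2 * (inside G U).edgeSet.ncard := by
    rw [← hE2, ← hsum]
    have h2 : ∑ v ∈ U.toFinset, degOn G U v = ∑ v ∈ U.toFinset, (inside G U).degree v := by
      apply Finset.sum_congr rfl
      intro v hv
      rw [Set.mem_toFinset] at hv
      exact (hdeg v hv).symm
    rw [h2]
    exact Finset.sum_le_sum_of_subset (Finset.subset_univ _)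
  set Lf := U.toFinset.filter (fun v => degOn G U v ≤ k) with hLf
  set Hf := U.toFinset.filter (fun v => ¬ degOn G U v ≤ k) with hHf
  have h2 : ∑ v ∈ Lf, degOn G U v + ∑ v ∈ Hf, degOn G U v = ∑ v ∈ U.toFinset, degOn G U v :=
    Finset.sum_filter_add_sum_filter_not _ _ _
  have h3 : Lf.card + Hf.card = U.ncard := by
    rw [Finset.card_filter_add_card_filter_not, ← Set.ncard_eq_toFinset_card']
  have h4 : 2 * Lf.card ≤ ∑ v ∈ Lf, degOn G U v := by
    have := Finset.card_nsmul_le_sum Lf (fun v => degOn G U v) 2 (by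
      intro v hv
      rw [hLf, Finset.mem_filter, Set.mem_toFinset] at hv
      exact (hcr v hv.1).1)
    rw [smul_eq_mul] at this
    omega
  have h5' : (k + 1) * Hf.card ≤ ∑ v ∈ Hf, degOn G U v := by
    have := Finset.card_nsmul_le_sum Hf (fun v => degOn G U v) (k + 1) (by
      intro v hv
      rw [hHf, Finset.mem_filter, Set.mem_toFinset] at hv
      have := hv.2
      omega)
    rw [smul_eq_mul, mul_comm] at this
    exact this
  have h5 : 28 * Hf.card ≤ ∑ v ∈ Hf, degOn G U v :=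
    (Nat.mul_le_mul_right _ (by omega)).trans h5'
  have h6 : Lf.card ≤ ∑ v ∈ Hf, degOn G U v := by
    have hex : ∀ v ∈ Lf, ∃ x, x ∈ U ∧ G.Adj v x ∧ k + 1 < degOn G U x := by
      intro v hv
      rw [hLf, Finset.mem_filter, Set.mem_toFinset] at hv
      obtain ⟨x, hx1, hx2, hx3⟩ := (hcr v hv.1).2 hv.2
      exact ⟨x, hx1, hx2, hx3⟩
    choose! x hx1 hx2 hx3 using hex
    have hmaps : ∀ v ∈ Lf, x v ∈ Hf := by
      intro v hv
      rw [hHf, Finset.mem_filter, Set.mem_toFinset]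
      have := hx3 v hv
      exact ⟨hx1 v hv, by omega⟩
    rw [Finset.card_eq_sum_card_fiberwise hmaps]
    apply Finset.sum_le_sum
    intro y _
    unfold degOn
    rw [← Set.ncard_coe_finset]
    apply Set.ncard_le_ncard _ (Set.toFinite _)
    intro v hv
    rw [Finset.coe_filter] at hv
    obtain ⟨hv1, hv2⟩ := hv
    have hvU : v ∈ U := by
      rw [hLf, Finset.mem_filter, Set.mem_toFinset] at hv1
      exact hv1.1
    exact ⟨by rw [← hv2]; exact (hx2 v hv1).symm, hvU⟩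
  have h7 : Nat.card {v : V // v ∈ U ∧ k < degOn G U v} = Hf.card := by
    rw [Nat.card_eq_fintype_card, Fintype.card_subtype]
    congr 1
    ext v
    simp [hHf]
  rw [h7]
  refine h5'.trans ?_
  zify at h1 h2 h3 h4 h5 h6 ⊢
  omega

/-- Renumbering the vertices. -/
theorem to_fin {S : Type} [Finite S] [Nonempty S] (Q : SimpleGraph S) {M k : ℕ}
    (h1 : ((M : ℕ) : ℕ∞) < Q.egirth) (h2 : ∀ v, k + 1 ≤ (Q.neighborSet v).ncard) :
    ∃ Q' : SimpleGraph (Fin (Nat.card S)), 0 < Nat.card S ∧ ((M : ℕ) : ℕ∞) < Q'.egirth ∧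
      ∀ v, k + 1 ≤ (Q'.neighborSet v).ncard := by
  classical
  obtain ⟨e⟩ : Nonempty (S ≃ Fin (Nat.card S)) := ⟨Finite.equivFin _⟩
  refine ⟨Q.comap e.symm, Nat.card_pos, ?_, ?_⟩
  · refine lt_of_lt_of_le h1 ?_
    exact SimpleGraph.IsContained.egirth_le
      ⟨(SimpleGraph.Embedding.comap e.symm.toEmbedding Q).toCopy⟩
  · intro v
    have h3 := h2 (e.symm v)
    refine h3.trans (le_of_eq ?_)
    rw [← Set.ncard_image_of_injective _ e.injective]
    congr 1
    ext w
    simp only [Set.mem_image, SimpleGraph.mem_neighborSet, SimpleGraph.comap_adj]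
    constructor
    · rintro ⟨x, hx, rfl⟩
      simpa using hx
    · intro hw
      exact ⟨e.symm w, hw, by simp⟩

/-- A graph that is not `(0,k)`-colourable yields a graph of large girth and large minimum degree
with few vertices. -/
theorem exists_quot (hQ : S_QUO) [Finite V] {G : SimpleGraph V} {m k g : ℕ} (hm : 1 ≤ m)
    (hk : 27 ≤ k) (hg : ((6 * m : ℕ) : ℕ∞) < G.egirth) (hemb : EmbedsEulerGenus G g)
    (h : ¬ ZeroCol G k) :
    ∃ (N : ℕ) (Q : SimpleGraph (Fin N)), 0 < N ∧ ((2 * m : ℕ) : ℕ∞) < Q.egirth ∧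
      (∀ v, k + 1 ≤ (Q.neighborSet v).ncard) ∧ (k + 1) * N ≤ 28 * g := by
  classical
  have hg6 : ((6 : ℕ) : ℕ∞) < G.egirth := by
    refine lt_of_le_of_lt ?_ hg
    exact_mod_cast (by omega : 6 ≤ 6 * m)
  have hg7 : ((7 : ℕ) : ℕ∞) ≤ G.egirth := by
    have := Order.add_one_le_of_lt hg6
    exact_mod_cast this
  obtain ⟨U, hne, hcr⟩ := exists_crit (triangle_free hg6) h
  have hnon : Nonempty {v : V // v ∈ U ∧ k < {w | G.Adj v w ∧ w ∈ U}.ncard} := by
    obtain ⟨v, hv⟩ := hne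
    by_cases hv1 : degOn G U v ≤ k
    · obtain ⟨x, hx1, hx2, hx3⟩ := (hcr v hv).2 hv1
      exact ⟨⟨x, hx1, lt_trans (Nat.lt_succ_self k) hx3⟩⟩
    · exact ⟨⟨v, hv, not_le.1 hv1⟩⟩
  have hcount := count_high hk (euler_on hemb hg7 hne) hcr
  obtain ⟨Q, hQg, hQd⟩ := hQ V G m k U hm hg hcr
  obtain ⟨Q', h1, h2, h3⟩ := to_fin Q hQg hQd
  exact ⟨_, Q', h1, h2, h3, hcount⟩

/-- The Moore bound. -/
theorem moore {N m k : ℕ} (Q : SimpleGraph (Fin N)) (hN : 0 < N)
    (hg : ((2 * m : ℕ) : ℕ∞) < Q.egirth) (hd : ∀ v, k + 1 ≤ (Q.neighborSet v).ncard) :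
    k ^ m ≤ N := by
  classical
  rw [Pool.TH815.GR.egirth_iff] at hg
  obtain ⟨E, hE, -⟩ := Pool.TH815.GR.growthT hg (fun _ => Finset.univ)
    (fun _ y => Q.neighborFinset y) (fun _ => k + 1)
    (fun i y _ z hz => ⟨Finset.mem_univ _, by simpa using hz⟩)
    (fun i y _ => by
      have := hd y
      rw [← Q.coe_neighborFinset, Set.ncard_coe_finset] at this
      exact this) (v := ⟨0, hN⟩) (Finset.mem_univ _) m le_rfl
  simp only [Nat.add_sub_cancel, Finset.prod_const, Finset.card_range] at hE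
  exact hE.trans ((Finset.card_le_univ E).trans (by simp))

/-- The upper bound in finite form. -/
theorem zeroCol_of_lt (hQ : S_QUO) [Finite V] {G : SimpleGraph V} {m k g : ℕ} (hm : 1 ≤ m)
    (hk : 27 ≤ k) (hg : ((6 * m : ℕ) : ℕ∞) < G.egirth) (hemb : EmbedsEulerGenus G g)
    (hlt : 28 * g < k ^ (m + 1)) : ZeroCol G k := by
  by_contra hcon
  obtain ⟨N, Q, hN, h1, h2, h3⟩ := exists_quot hQ hm hk hg hemb hcon
  have h4 := moore Q hN h1 h2
  have h5 : k ^ (m + 1) ≤ (k + 1) * N := by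
    rw [pow_succ, mul_comm]
    exact Nat.mul_le_mul (Nat.le_succ k) h4
  omega

end Pool.Agent.Y393.SG
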