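import Pool.Agent.Y393.SG.Crit

/-!
Project SG: the lower bound and the equivalence.
-/

set_option autoImplicit false

namespace Pool.Agent.Y393.SG

open SimpleGraph Pool.Agent.H968R3 Pool.TH815.GR

/-- Sharpness of the exponent `β` for graphs of girth at least `l`: for all large `g` some finite
graph of girth at least `l` that embeds on a surface of Euler genus `g` is not
`(0, ⌊κ g ^ β⌋)`-colourable. -/
def SurfForm (l : ℕ) (β : ℝ) : Prop :=
  ∃ κ : ℝ, 0 < κ ∧ ∃ g₀ : ℕ, ∀ g ≥ g₀, ∃ (V : Type) (_ : Finite V) (G : SimpleGraph V),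
    (l : ℕ∞) ≤ G.egirth ∧ EmbedsEulerGenus G g ∧ ¬ ZeroCol G ⌊κ * (g : ℝ) ^ β⌋₊

theorem exists_label {A : Type} [Finite A] (H : SimpleGraph A) (L D : ℕ) (hL : 0 < L)
    (hd : ∀ a, (H.neighborSet a).ncard = L * D) :
    ∃ φ : A → A → ZMod L, ∀ a s, {b | H.Adj a b ∧ φ a b = s}.ncard = D := by
  classical
  have : NeZero L := ⟨hL.ne'⟩
  have he : ∀ a, Nonempty (H.neighborSet a ≃ ZMod L × Fin D) := by
    intro a
    refine Finite.card_eq.1 ?_
    rw [Nat.card_coe_set_eq, hd a, Nat.card_prod, Nat.card_zmod, Nat.card_eq_fintype_card,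
      Fintype.card_fin]
  have e : ∀ a, H.neighborSet a ≃ ZMod L × Fin D := fun a => (he a).some
  refine ⟨fun a b => if h : H.Adj a b then (e a ⟨b, h⟩).1 else 0, fun a s => ?_⟩
  have h1 : {b | H.Adj a b ∧ (if h : H.Adj a b then (e a ⟨b, h⟩).1 else 0) = s} =
      Set.range (fun i : Fin D => (((e a).symm (s, i) : H.neighborSet a) : A)) := by
    ext b
    simp only [Set.mem_ofPred_eq, Set.mem_range]
    constructor
    · rintro ⟨h1, h2⟩
      rw [dif_pos h1] at h2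
      refine ⟨(e a ⟨b, h1⟩).2, ?_⟩
      rw [← h2]
      simp
    · rintro ⟨i, rfl⟩
      have h1 : H.Adj a ((e a).symm (s, i)).1 := ((e a).symm (s, i)).2
      refine ⟨h1, ?_⟩
      rw [dif_pos h1]
      have h2 : (e a) ((e a).symm (s, i)) = (s, i) := Equiv.apply_symm_apply _ _
      exact congrArg Prod.fst h2
  rw [h1, ← Nat.card_coe_set_eq, Nat.card_range_of_injective, Nat.card_eq_fintype_card,
    Fintype.card_fin]
  intro i j hij
  have h2 : (e a).symm (s, i) = (e a).symm (s, j) := Subtype.ext hij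
  have h3 := (e a).symm.injective h2
  simpa using h3

/-- A bipartite graph of girth greater than `2 m` has girth at least `2 m + 2`. -/
theorem egirth_bip {m n : ℕ} {G : SimpleGraph (Fin n ⊕ Fin n)}
    (hg : ((2 * m : ℕ) : ℕ∞) < G.egirth)
    (h1 : ∀ x y, ¬ G.Adj (Sum.inl x) (Sum.inl y)) (h2 : ∀ x y, ¬ G.Adj (Sum.inr x) (Sum.inr y)) :
    ((2 * m + 2 : ℕ) : ℕ∞) ≤ G.egirth := by
  classical
  rw [egirth_iff] at hg
  rw [SimpleGraph.le_egirth]
  intro v p hp
  have h3 := hg v p hp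
  have hcol : ∀ x y, G.Adj x y → x.isLeft ≠ y.isLeft := by
    rintro (x | x) (y | y) h
    · exact absurd h (h1 x y)
    · simp
    · simp
    · exact absurd h (h2 x y)
  let C : G.Coloring Bool := SimpleGraph.Coloring.mk (fun x => x.isLeft) (fun {x y} h => hcol x y h)
  have h4 : Even p.length := (C.even_length_iff_congr p).2 Iff.rfl
  obtain ⟨t, ht⟩ := h4
  have h5 : 2 * m + 2 ≤ p.length := by omega
  exact_mod_cast h5

theorem surfForm_of_regForm (hE : S_EMB) (hG : S_GIR) (hC : S_COL) (hN : S_EDG) {m l : ℕ}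
    {α : ℝ} (hα : 0 < α) (hl : l ≤ 6 * m + 6) (h : RegForm m α) : SurfForm l (α / (1 + α)) := by
  classical
  obtain ⟨C, hC1⟩ := h
  have hC0 : 0 < C := by
    obtain ⟨n, G, hn, hn2, -⟩ := hC1 1 le_rfl
    have : (0 : ℝ) < n := by exact_mod_cast hn
    simp at hn2
    linarith
  set β : ℝ := α / (1 + α) with hβ
  have hβ0 : 0 < β := by positivity
  set L : ℕ := 6 * m + 7 with hL
  have hL0 : (0 : ℝ) < L := by rw [hL]; positivity
  set κ : ℝ := 1 / (3 * (L : ℝ) ^ 2) * (1 / (12 * C)) ^ β with hκ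
  have hκ0 : 0 < κ := by positivity
  obtain ⟨g₀, hg₀⟩ := exists_nat_ge ((1 / κ) ^ (1 / β))
  refine ⟨κ, hκ0, g₀, fun g hg => ?_⟩
  have hgr : (1 / κ) ^ (1 / β) ≤ (g : ℝ) := hg₀.trans (by exact_mod_cast hg)
  have hgpos : (0 : ℝ) < g := lt_of_lt_of_le (by positivity) hgr
  have hk1 : 1 ≤ κ * (g : ℝ) ^ β := by
    have h1 : (1 / κ) ≤ (g : ℝ) ^ β := by
      calc (1 / κ) = ((1 / κ) ^ (1 / β)) ^ β := by
            rw [← Real.rpow_mul (by positivity)]
            have : 1 / β * β = 1 := by field_simp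
            rw [this, Real.rpow_one]
        _ ≤ (g : ℝ) ^ β := Real.rpow_le_rpow (by positivity) hgr hβ0.le
    calc (1 : ℝ) = κ * (1 / κ) := by field_simp
      _ ≤ κ * (g : ℝ) ^ β := mul_le_mul_of_nonneg_left h1 hκ0.le
  set k : ℕ := ⌊κ * (g : ℝ) ^ β⌋₊ with hk
  have hkk : 1 ≤ k := by
    rw [hk, Nat.le_floor_iff (by positivity)]
    exact_mod_cast hk1
  have hkr : (k : ℝ) ≤ κ * (g : ℝ) ^ β := Nat.floor_le (by positivity)
  set D : ℕ := 2 * L * k + 1 with hD
  set d : ℕ := L * D with hd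
  have hd1 : 1 ≤ d := by rw [hd]; exact Nat.one_le_iff_ne_zero.2 (Nat.mul_ne_zero (by omega) (by omega))
  obtain ⟨n, H, hn, hnC, hgir, hb1, hb2, hreg⟩ := hC1 d hd1
  obtain ⟨φ, hφ⟩ := exists_label H L D (by omega) hreg
  have hcard : Nat.card (Fin n ⊕ Fin n) = 2 * n := by
    rw [Nat.card_eq_fintype_card, Fintype.card_sum, Fintype.card_fin]
    ring
  have : Nonempty (Fin n ⊕ Fin n) := ⟨Sum.inl ⟨0, hn⟩⟩
  have : NeZero L := ⟨by omega⟩
  refine ⟨((Fin n ⊕ Fin n) × ZMod L) ⊕ ((Fin n ⊕ Fin n) × (Fin n ⊕ Fin n)), inferInstance,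
    blow H L φ, ?_, ?_, ?_⟩
  · exact hG _ H L φ (2 * m + 2) l (by omega) (egirth_bip hgir hb1 hb2) (by omega) (by omega)
  · apply hE
    have h1 := hN _ H L D φ (by omega) hφ
    rw [hcard] at h1
    have h2 : (2 * ((blow H L φ).edgeSet.ncard : ℝ)) ≤ g := by
      have h3 : ((blow H L φ).edgeSet.ncard : ℝ) ≤ 2 * n * L * (2 * D + 1) := by exact_mod_cast h1
      have h4 : (2 * (D : ℝ) + 1) ≤ 3 * D := by
        have : (1 : ℝ) ≤ D := by rw [hD]; push_cast; nlinarith [hL0, (by exact_mod_cast hkk : (1:ℝ) ≤ k)]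
        linarith
      have h5 : ((blow H L φ).edgeSet.ncard : ℝ) ≤ 6 * n * d := by
        calc ((blow H L φ).edgeSet.ncard : ℝ) ≤ 2 * n * L * (2 * D + 1) := h3
          _ ≤ 2 * n * L * (3 * D) := by gcongr
          _ = 6 * n * d := by rw [hd]; push_cast; ring
      have hdpos : (0 : ℝ) < d := by exact_mod_cast hd1
      have h6 : (n : ℝ) * d ≤ C * (d : ℝ) ^ (1 + 1 / α) := by
        rw [Real.rpow_add hdpos, Real.rpow_one]
        calc (n : ℝ) * d ≤ C * (d : ℝ) ^ (1 / α) * d := mul_le_mul_of_nonneg_right hnC hdpos.le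
          _ = _ := by ring
      have h7 : (d : ℝ) ≤ 3 * (L : ℝ) ^ 2 * k := by
        rw [hd, hD]
        push_cast
        have h8 : (1 : ℝ) ≤ k := by exact_mod_cast hkk
        have h9 : (1 : ℝ) ≤ L := by rw [hL]; push_cast; linarith [(Nat.cast_nonneg m : (0:ℝ) ≤ m)]
        nlinarith [mul_nonneg hL0.le (sub_nonneg.2 h8), mul_nonneg hL0.le (sub_nonneg.2 h9),
          mul_nonneg (mul_nonneg hL0.le (sub_nonneg.2 h9)) (by linarith : (0:ℝ) ≤ k)]
      have h8 : (d : ℝ) ≤ (g / (12 * C)) ^ β := by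
        calc (d : ℝ) ≤ 3 * (L : ℝ) ^ 2 * k := h7
          _ ≤ 3 * (L : ℝ) ^ 2 * (κ * (g : ℝ) ^ β) := by gcongr
          _ = (1 / (12 * C)) ^ β * (g : ℝ) ^ β := by
              rw [hκ]; field_simp
          _ = (g / (12 * C)) ^ β := by
              rw [← Real.mul_rpow (by positivity) (by positivity)]
              congr 1; ring
      have h9 : (d : ℝ) ^ (1 + 1 / α) ≤ g / (12 * C) := by
        calc (d : ℝ) ^ (1 + 1 / α) ≤ ((g / (12 * C)) ^ β) ^ (1 + 1 / α) :=
              Real.rpow_le_rpow hdpos.le h8 (by positivity)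
          _ = g / (12 * C) := by
              rw [← Real.rpow_mul (by positivity)]
              have : β * (1 + 1 / α) = 1 := by rw [hβ]; field_simp; ring
              rw [this, Real.rpow_one]
      calc 2 * ((blow H L φ).edgeSet.ncard : ℝ) ≤ 12 * (n * d) := by linarith
        _ ≤ 12 * (C * (g / (12 * C))) := by
            have := mul_le_mul_of_nonneg_left h9 hC0.le
            linarith
        _ = g := by field_simp
    exact_mod_cast h2
  · exact hC _ H L D k φ (by omega) ⟨3 * m + 3, by omega⟩ hφ (by omega)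

/-- From graphs on surfaces to dense graphs of large girth. -/
theorem denseForm_of_surfForm (hQ : S_QUO) {m l : ℕ} {α : ℝ} (hm : 1 ≤ m) (hα : 0 < α)
    (hl : 6 * m + 1 ≤ l) (h : SurfForm l (α / (1 + α))) : DenseForm m α := by
  classical
  obtain ⟨κ, hκ, g₀, hg₀⟩ := h
  set β : ℝ := α / (1 + α) with hβ
  have hβ0 : 0 < β := by positivity
  -- lower bound for `g` in terms of `n`
  set x : ℝ := max ((g₀ : ℝ) + 1) (max 1 ((28 / κ) ^ (1 / β)) * 2) with hx
  have hx0 : 0 < x := lt_of_lt_of_le (by positivity) (le_max_left _ _)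
  obtain ⟨N₀, hN₀⟩ := exists_nat_ge (28 / κ * x ^ (1 / (1 + α)))
  refine ⟨κ * (1 / 2) ^ β * (κ / 28) ^ α / 4, by positivity, max N₀ 1, fun n hn => ?_⟩
  have hn1 : 1 ≤ n := le_trans (le_max_right _ _) hn
  have hnN : N₀ ≤ n := le_trans (le_max_left _ _) hn
  have hnr : (0 : ℝ) < n := by exact_mod_cast hn1
  set y : ℝ := (κ * n / 28) ^ (1 + α) with hy
  have hxy : x ≤ y := by
    have h1 : x ^ (1 / (1 + α)) ≤ κ * n / 28 := by
      have h2 : 28 / κ * x ^ (1 / (1 + α)) ≤ n := hN₀.trans (by exact_mod_cast hnN)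
      rw [le_div_iff₀ (by norm_num)]
      rw [div_mul_eq_mul_div, div_le_iff₀ hκ] at h2
      linarith
    calc x = (x ^ (1 / (1 + α))) ^ (1 + α) := by
          rw [← Real.rpow_mul hx0.le]
          have : 1 / (1 + α) * (1 + α) = 1 := by field_simp
          rw [this, Real.rpow_one]
      _ ≤ y := Real.rpow_le_rpow (by positivity) h1 (by positivity)
  have hy0 : 0 < y := lt_of_lt_of_le hx0 hxy
  set g : ℕ := ⌊y⌋₊ with hg
  have hgy : (g : ℝ) ≤ y := Nat.floor_le hy0.le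
  have hy1 : 2 ≤ y := by
    have h1 : (1 : ℝ) * 2 ≤ max 1 ((28 / κ) ^ (1 / β)) * 2 :=
      mul_le_mul_of_nonneg_right (le_max_left _ _) (by norm_num)
    have h2 : max 1 ((28 / κ) ^ (1 / β)) * 2 ≤ x := le_max_right _ _
    linarith
  have hgy2 : y / 2 ≤ g := by
    have := Nat.lt_floor_add_one y
    rw [← hg] at this
    linarith
  have hgg : g₀ ≤ g := by
    have h1 : (g₀ : ℝ) + 1 ≤ y := (le_max_left _ _).trans hxy
    rw [hg]
    exact Nat.le_floor (by linarith)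
  obtain ⟨V, hV, G, hgir, hemb, hcol⟩ := hg₀ g hgg
  set k : ℕ := ⌊κ * (g : ℝ) ^ β⌋₊ with hk
  have hg0 : (0 : ℝ) < g := by linarith
  have hklt : κ * (g : ℝ) ^ β < k + 1 := Nat.lt_floor_add_one _
  have hk27 : 27 ≤ k := by
    have h1 : (28 / κ) ^ (1 / β) ≤ g := by
      have h2 : max 1 ((28 / κ) ^ (1 / β)) * 2 ≤ y := (le_max_right _ _).trans hxy
      have h3 := le_max_right (1 : ℝ) ((28 / κ) ^ (1 / β))
      linarith
    have h2 : 28 / κ ≤ (g : ℝ) ^ β := by
      calc 28 / κ = ((28 / κ) ^ (1 / β)) ^ β := by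
            rw [← Real.rpow_mul (by positivity)]
            have : 1 / β * β = 1 := by field_simp
            rw [this, Real.rpow_one]
        _ ≤ (g : ℝ) ^ β := Real.rpow_le_rpow (by positivity) h1 hβ0.le
    have h3 : (28 : ℝ) ≤ κ * (g : ℝ) ^ β := by
      rw [div_le_iff₀ hκ] at h2
      linarith
    have h4 : (28 : ℝ) < k + 1 := lt_of_le_of_lt h3 hklt
    have h5 : 28 < k + 1 := by exact_mod_cast h4
    omega
  have hgir' : ((6 * m : ℕ) : ℕ∞) < G.egirth := by
    refine lt_of_lt_of_le ?_ hgir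
    exact_mod_cast (by omega : 6 * m < l)
  obtain ⟨N, Q, hN, h1, h2, h3⟩ := exists_quot hQ hm hk27 hgir' hemb hcol
  -- `N ≤ n`
  have h4 : N ≤ n := by
    have h5 : ((k : ℝ) + 1) * N ≤ 28 * g := by exact_mod_cast h3
    have h6 : κ * (g : ℝ) ^ β * N ≤ 28 * g :=
      le_trans (mul_le_mul_of_nonneg_right hklt.le (Nat.cast_nonneg _)) h5
    have h7 : (g : ℝ) = (g : ℝ) ^ β * (g : ℝ) ^ (1 / (1 + α)) := by
      rw [← Real.rpow_add hg0]
      have : β + 1 / (1 + α) = 1 := by rw [hβ]; field_simp; ring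
      rw [this, Real.rpow_one]
    have h8 : κ * N ≤ 28 * (g : ℝ) ^ (1 / (1 + α)) := by
      have h9 : (g : ℝ) ^ β * (κ * N) ≤ (g : ℝ) ^ β * (28 * (g : ℝ) ^ (1 / (1 + α))) := by
        calc (g : ℝ) ^ β * (κ * N) = κ * (g : ℝ) ^ β * N := by ring
          _ ≤ 28 * g := h6
          _ = 28 * ((g : ℝ) ^ β * (g : ℝ) ^ (1 / (1 + α))) := by rw [← h7]
          _ = _ := by ring
      exact le_of_mul_le_mul_left h9 (by positivity)
    have h9 : (g : ℝ) ^ (1 / (1 + α)) ≤ κ * n / 28 := by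
      calc (g : ℝ) ^ (1 / (1 + α)) ≤ y ^ (1 / (1 + α)) :=
            Real.rpow_le_rpow hg0.le hgy (by positivity)
        _ = κ * n / 28 := by
            rw [hy, ← Real.rpow_mul (by positivity)]
            have : (1 + α) * (1 / (1 + α)) = 1 := by field_simp
            rw [this, Real.rpow_one]
    have h10 : κ * N ≤ κ * n := by linarith
    exact_mod_cast le_of_mul_le_mul_left h10 hκ
  obtain ⟨H, hH, hHe⟩ := GU4.copies N n (k + 1) (((2 * m : ℕ) : ℕ∞) + 1) hN h4 Q (by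
    intro v
    have h5 := h2 v
    rw [← Q.coe_neighborFinset, Set.ncard_coe_finset] at h5
    exact h5) (by
    rw [ENat.add_one_le_iff (ENat.natCast_ne_top _)]
    exact h1)
  rw [ENat.add_one_le_iff (ENat.natCast_ne_top _)] at hH
  refine ⟨H, hH, ?_⟩
  have h5 : (n : ℝ) * (k + 1) ≤ 4 * (H.edgeSet.ncard : ℝ) := by exact_mod_cast hHe
  have h6 : κ * ((1 / 2) ^ β * (κ / 28) ^ α * (n : ℝ) ^ α) ≤ k + 1 := by
    refine le_trans ?_ hklt.le
    refine mul_le_mul_of_nonneg_left ?_ hκ.le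
    calc (1 / 2) ^ β * (κ / 28) ^ α * (n : ℝ) ^ α = (y / 2) ^ β := by
          rw [div_eq_mul_one_div y 2, Real.mul_rpow hy0.le (by norm_num), hy,
            ← Real.rpow_mul (by positivity)]
          have : (1 + α) * β = α := by rw [hβ]; field_simp
          rw [this, mul_div_right_comm, Real.mul_rpow (by positivity) hnr.le]
          ring
      _ ≤ (g : ℝ) ^ β := Real.rpow_le_rpow (by positivity) hgy2 hβ0.le
  have h7 : (n : ℝ) ^ (1 + α) = n * (n : ℝ) ^ α := by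
    rw [Real.rpow_add hnr, Real.rpow_one]
  rw [h7]
  calc κ * (1 / 2) ^ β * (κ / 28) ^ α / 4 * (n * (n : ℝ) ^ α)
      = n * (κ * ((1 / 2) ^ β * (κ / 28) ^ α * (n : ℝ) ^ α)) / 4 := by ring
    _ ≤ n * (k + 1) / 4 := by gcongr
    _ ≤ _ := by linarith

/-- **The equivalence.** -/
theorem surfForm_iff (hE : S_EMB) (hG : S_GIR) (hC : S_COL) (hN : S_EDG) (hQ : S_QUO)
    {m l : ℕ} {α : ℝ} (hm : 1 ≤ m) (hα : 0 < α) (hl : 6 * m + 1 ≤ l) (hl2 : l ≤ 6 * m + 6) :
    SurfForm l (α / (1 + α)) ↔ DenseForm m α :=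
  ⟨denseForm_of_surfForm hQ hm hα hl, fun h =>
    surfForm_of_regForm hE hG hC hN hα hl2 (regForm_of_denseForm hα h)⟩

end Pool.Agent.Y393.SG
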