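import Pool.Agent.Y393.SG.Patch

/-!
Project SG: subdividing a triangle, adding a tube.
-/

set_option autoImplicit false

namespace Pool.Agent.Y393.SG

open SimpleGraph Pool.Agent.H968R3

theorem t_SUB : S_SUB := by
  classical
  intro T hT t ht c hc
  have htc := hT.card_eq t ht
  obtain ⟨a0, ha0⟩ : t.Nonempty := by rw [← Finset.card_pos]; omega
  obtain ⟨a1, a2, hteq, h01, h02, h12⟩ := three_of_mem htc ha0
  have hct : c ∉ t := fun h => hc (mem_vs.2 ⟨t, ht, h⟩)
  have hc0 : c ≠ a0 := fun h => hct (by rw [h, hteq]; simp)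
  have hc1 : c ≠ a1 := fun h => hct (by rw [h, hteq]; simp)
  have hc2 : c ≠ a2 := fun h => hct (by rw [h, hteq]; simp)
  set f : Fin 4 → ℕ := ![a0, a1, a2, c] with hf
  have hfi : Function.Injective f := by
    intro i j h
    fin_cases i <;> fin_cases j <;> simp [hf] at h ⊢ <;> first | exact absurd h (by assumption) | exact absurd h.symm (by assumption)
  have hR : img f R4 = {t} := by
    have e : (({0, 1, 2} : Finset (Fin 4)).image f) = t := by
      rw [hteq]; simp [hf, Finset.image_insert]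
    unfold img R4
    rw [Finset.image_singleton, e]
  have hPeq : img f P4 = {{a0, a1, c}, {a1, a2, c}, {a0, a2, c}} := by
    have e1 : (({0, 1, 3} : Finset (Fin 4)).image f) = {a0, a1, c} := by
      simp [hf, Finset.image_insert]
    have e2 : (({1, 2, 3} : Finset (Fin 4)).image f) = {a1, a2, c} := by
      simp [hf, Finset.image_insert]
    have e3 : (({0, 2, 3} : Finset (Fin 4)).image f) = {a0, a2, c} := by
      simp [hf, Finset.image_insert]
    unfold img P4
    rw [Finset.image_insert (fun t : Finset (Fin 4) => t.image f),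
      Finset.image_insert (fun t : Finset (Fin 4) => t.image f),
      Finset.image_singleton (fun t : Finset (Fin 4) => t.image f), e1, e2, e3]
  have hmemP : ∀ s ∈ img f P4, c ∈ s ∧ s ⊆ insert c t ∧ s.card = 3 ∧ ∃ x ∈ s, x ∈ t := by
    intro s hs
    rw [hPeq] at hs
    simp only [Finset.mem_insert, Finset.mem_singleton] at hs
    rcases hs with rfl | rfl | rfl
    · refine ⟨by simp, ?_, Finset.card_eq_three.2 ⟨a0, a1, c, h01, hc0.symm, hc1.symm, rfl⟩,
        a0, by simp, by rw [hteq]; simp⟩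
      rw [hteq]; intro x; simp only [Finset.mem_insert, Finset.mem_singleton]; tauto
    · refine ⟨by simp, ?_, Finset.card_eq_three.2 ⟨a1, a2, c, h12, hc1.symm, hc2.symm, rfl⟩,
        a1, by simp, by rw [hteq]; simp⟩
      rw [hteq]; intro x; simp only [Finset.mem_insert, Finset.mem_singleton]; tauto
    · refine ⟨by simp, ?_, Finset.card_eq_three.2 ⟨a0, a2, c, h02, hc0.symm, hc2.symm, rfl⟩,
        a0, by simp, by rw [hteq]; simp⟩
      rw [hteq]; intro x; simp only [Finset.mem_insert, Finset.mem_singleton]; tauto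
  have hcnt0 : ∀ y, cnt T c y = 0 := by
    intro y
    by_contra h
    obtain ⟨s, hs, h1, -⟩ := cnt_pos.1 (Nat.pos_of_ne_zero h)
    exact hc (mem_vs.2 ⟨s, hs, h1⟩)
  have hcnt0' : ∀ y, cnt T y c = 0 := by
    intro y
    by_contra h
    obtain ⟨s, hs, -, h1⟩ := cnt_pos.1 (Nat.pos_of_ne_zero h)
    exact hc (mem_vs.2 ⟨s, hs, h1⟩)
  have hvsR : ∀ x, x ∈ vs (img f R4) ↔ x ∈ t := by
    intro x
    rw [hR, mem_vs]
    simp
  obtain ⟨h1, h2, h3⟩ := patch (T := T) (R := img f R4) (P := img f P4) hT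
    (by rw [hR]; simpa using ht)
    (fun s hs => (hmemP s hs).2.2.1)
    (by rw [hPeq]; simp)
    (fun s hs hsT => hc (mem_vs.2 ⟨s, hsT, (hmemP s hs).1⟩))
    (by
      intro x y hxy
      by_cases hx : ∃ i, x = f i
      · by_cases hy : ∃ j, y = f j
        · obtain ⟨i, rfl⟩ := hx
          obtain ⟨j, rfl⟩ := hy
          rw [cnt_img hfi, cnt_img hfi]
          rcases count4 i j (fun e => hxy (by rw [e])) with h | ⟨h, h'⟩
          · exact Or.inl h
          · refine Or.inr ⟨?_, h'⟩
            rcases h with rfl | rfl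
            · exact hcnt0 _
            · exact hcnt0' _
        · push Not at hy
          left
          rw [cnt_img_right _ hy, cnt_img_right _ hy]
      · push Not at hx
        left
        rw [cnt_img_left _ hx, cnt_img_left _ hx])
    (hL_img hfi P4 chain4)
    (fun s hs => by
      obtain ⟨x, hx, hxt⟩ := (hmemP s hs).2.2.2
      exact ⟨x, hx, (hvsR x).2 hxt⟩)
    (by
      intro x hx hxT
      obtain ⟨s, hs, hxs⟩ := mem_vs.1 hx
      have h4 := (hmemP s hs).2.1 hxs
      rw [Finset.mem_insert] at h4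
      rcases h4 with h4 | h4
      · exact absurd (h4 ▸ hxT) hc
      · exact (hvsR x).2 h4)
  have hPmem : ∀ x ∈ t, ∀ y ∈ t, x ≠ y → ({c, x, y} : Finset ℕ) ∈ img f P4 := by
    intro x hx y hy hxy
    rw [hPeq]
    rw [hteq] at hx hy
    simp only [Finset.mem_insert, Finset.mem_singleton] at hx hy ⊢
    have e : ∀ u v : ℕ, ({c, u, v} : Finset ℕ) = {u, v, c} := by
      intro u v; ext z; simp only [Finset.mem_insert, Finset.mem_singleton]; tauto
    have e' : ∀ u v : ℕ, ({c, u, v} : Finset ℕ) = {v, u, c} := by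
      intro u v; ext z; simp only [Finset.mem_insert, Finset.mem_singleton]; tauto
    rcases hx with rfl | rfl | rfl <;> rcases hy with rfl | rfl | rfl
    · exact absurd rfl hxy
    · exact Or.inl (e _ _)
    · exact Or.inr (Or.inr (e _ _))
    · exact Or.inl (e' _ _)
    · exact absurd rfl hxy
    · exact Or.inr (Or.inl (e _ _))
    · exact Or.inr (Or.inr (e' _ _))
    · exact Or.inr (Or.inl (e' _ _))
    · exact absurd rfl hxy
  refine ⟨(T \ img f R4) ∪ img f P4, h1, ?_, ?_, h3, ?_, ?_, ?_, ?_⟩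
  · rw [h2]
    ext x
    rw [Finset.mem_union, Finset.mem_insert]
    constructor
    · rintro (h | h)
      · exact Or.inr h
      · obtain ⟨s, hs, hxs⟩ := mem_vs.1 h
        have h4 := (hmemP s hs).2.1 hxs
        rw [Finset.mem_insert] at h4
        exact h4.imp id (fun h5 => mem_vs.2 ⟨t, ht, h5⟩)
    · rintro (h | h)
      · right
        rw [h]
        exact mem_vs.2 ⟨_, hPmem a0 (by rw [hteq]; simp) a1 (by rw [hteq]; simp) h01, by simp⟩
      · exact Or.inl h
  · have h4 : (img f P4).card = 3 := by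
      unfold img
      rw [Finset.card_image_of_injective _ (Finset.image_injective hfi)]
      decide +kernel
    have h5 : Disjoint (T \ img f R4) (img f P4) := by
      rw [Finset.disjoint_left]
      intro s hs hs'
      exact hc (mem_vs.2 ⟨s, (Finset.mem_sdiff.1 hs).1, (hmemP s hs').1⟩)
    rw [Finset.card_union_of_disjoint h5, h4, hR, Finset.card_sdiff_of_subset (by simpa using ht),
      Finset.card_singleton]
    have : 1 ≤ T.card := Finset.card_pos.2 ⟨t, ht⟩
    omega
  · rintro x y hx hy ⟨hxy, s, hs, h4, h5⟩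
    rw [Finset.mem_union, Finset.mem_sdiff] at hs
    rcases hs with hs | hs
    · exact ⟨hxy, s, hs.1, h4, h5⟩
    · have h6 := (hmemP s hs).2.1 h4
      have h7 := (hmemP s hs).2.1 h5
      rw [Finset.mem_insert] at h6 h7
      exact ⟨hxy, t, ht, h6.resolve_left hx, h7.resolve_left hy⟩
  · intro x
    constructor
    · rintro ⟨hxy, s, hs, h4, h5⟩
      rw [Finset.mem_union, Finset.mem_sdiff] at hs
      rcases hs with hs | hs
      · exact absurd (mem_vs.2 ⟨s, hs.1, h4⟩) hc
      · have h7 := (hmemP s hs).2.1 h5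
        rw [Finset.mem_insert] at h7
        exact h7.resolve_left hxy.symm
    · intro hx
      have h4 : 1 < t.card := by omega
      obtain ⟨z, hz, hzx⟩ := Finset.exists_mem_ne h4 x
      exact ⟨fun e => hct (e ▸ hx), {c, x, z}, Finset.mem_union_right _ (hPmem x hx z hz hzx.symm),
        by simp, by simp⟩
  · intro s hs hst
    refine Finset.mem_union_left _ (Finset.mem_sdiff.2 ⟨hs, ?_⟩)
    rw [hR]
    simpa using hst
  · intro x hx y hy hxy
    exact Finset.mem_union_right _ (hPmem x hx y hy hxy)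

theorem t_HAN : S_HAN := by
  classical
  intro T hT t₁ ht₁ t₂ ht₂ hsep a0 ha0 b0 hb0
  obtain ⟨a1, a2, hta, h01, h02, h12⟩ := three_of_mem (hT.card_eq t₁ ht₁) ha0
  obtain ⟨b1, b2, htb, k01, k02, k12⟩ := three_of_mem (hT.card_eq t₂ ht₂) hb0
  have hmA : ∀ x, x ∈ t₁ ↔ x = a0 ∨ x = a1 ∨ x = a2 := by
    intro x; rw [hta]; simp
  have hmB : ∀ x, x ∈ t₂ ↔ x = b0 ∨ x = b1 ∨ x = b2 := by
    intro x; rw [htb]; simp
  have ha1 : a1 ∈ t₁ := (hmA _).2 (Or.inr (Or.inl rfl))
  have ha2 : a2 ∈ t₁ := (hmA _).2 (Or.inr (Or.inr rfl))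
  have hb1 : b1 ∈ t₂ := (hmB _).2 (Or.inr (Or.inl rfl))
  have hb2 : b2 ∈ t₂ := (hmB _).2 (Or.inr (Or.inr rfl))
  have d00 := (hsep a0 ha0 b0 hb0).1
  have d01 := (hsep a0 ha0 b1 hb1).1
  have d02 := (hsep a0 ha0 b2 hb2).1
  have d10 := (hsep a1 ha1 b0 hb0).1
  have d11 := (hsep a1 ha1 b1 hb1).1
  have d12 := (hsep a1 ha1 b2 hb2).1
  have d20 := (hsep a2 ha2 b0 hb0).1
  have d21 := (hsep a2 ha2 b1 hb1).1
  have d22 := (hsep a2 ha2 b2 hb2).1
  set f : Fin 6 → ℕ := ![a0, a1, a2, b0, b1, b2] with hf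
  have hfi : Function.Injective f := by
    intro i j h
    fin_cases i <;> fin_cases j <;> simp [hf] at h ⊢ <;>
      first | exact absurd h (by assumption) | exact absurd h.symm (by assumption)
  have hfA : ∀ i : Fin 6, i.val < 3 → f i ∈ t₁ := by
    intro i hi
    fin_cases i
    · exact ha0
    · exact ha1
    · exact ha2
    · exact absurd hi (by decide)
    · exact absurd hi (by decide)
    · exact absurd hi (by decide)
  have hfB : ∀ i : Fin 6, 3 ≤ i.val → f i ∈ t₂ := by
    intro i hi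
    fin_cases i
    · exact absurd hi (by decide)
    · exact absurd hi (by decide)
    · exact absurd hi (by decide)
    · exact hb0
    · exact hb1
    · exact hb2
  have hR : img f R6 = {t₁, t₂} := by
    have e1 : (({0, 1, 2} : Finset (Fin 6)).image f) = t₁ := by
      rw [hta]; simp [hf, Finset.image_insert]
    have e2 : (({3, 4, 5} : Finset (Fin 6)).image f) = t₂ := by
      rw [htb]; simp [hf, Finset.image_insert]
    unfold img R6
    rw [Finset.image_insert (fun t : Finset (Fin 6) => t.image f),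
      Finset.image_singleton (fun t : Finset (Fin 6) => t.image f), e1, e2]
  have htne : t₁ ≠ t₂ := by
    intro e
    rw [e] at ha0
    exact (hsep a0 (e ▸ ha0) a0 ha0).1 rfl
  have hnot : ∀ x ∈ t₁, ∀ y ∈ t₂, ∀ s ∈ T, x ∈ s → y ∈ s → False := by
    intro x hx y hy s hs h1 h2
    exact (hsep x hx y hy).2 ⟨(hsep x hx y hy).1, s, hs, h1, h2⟩
  have hconc : ∀ s ∈ P6, s.card = 3 ∧ (∃ i ∈ s, i.val < 3) ∧ ∃ j ∈ s, 3 ≤ j.val := by
    decide +kernel
  have hmemP : ∀ s ∈ img f P6, s.card = 3 ∧ (∃ x ∈ s, x ∈ t₁) ∧ (∃ y ∈ s, y ∈ t₂) ∧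
      ∀ x ∈ s, x ∈ t₁ ∨ x ∈ t₂ := by
    intro s hs
    unfold img at hs
    rw [Finset.mem_image] at hs
    obtain ⟨u, hu, rfl⟩ := hs
    obtain ⟨h1, ⟨i, hi, hi3⟩, j, hj, hj3⟩ := hconc u hu
    refine ⟨by rw [Finset.card_image_of_injective _ hfi, h1],
      ⟨f i, Finset.mem_image_of_mem f hi, hfA i hi3⟩,
      ⟨f j, Finset.mem_image_of_mem f hj, hfB j hj3⟩, ?_⟩
    intro x hx
    rw [Finset.mem_image] at hx
    obtain ⟨q, -, rfl⟩ := hx
    rcases lt_or_ge q.val 3 with h | h
    · exact Or.inl (hfA q h)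
    · exact Or.inr (hfB q h)
  have hPT : ∀ s ∈ img f P6, s ∉ T := by
    intro s hs hsT
    obtain ⟨-, ⟨x, hx, hx1⟩, ⟨y, hy, hy2⟩, -⟩ := hmemP s hs
    exact hnot x hx1 y hy2 s hsT hx hy
  have hvsR : ∀ x, x ∈ vs (img f R6) ↔ x ∈ t₁ ∨ x ∈ t₂ := by
    intro x
    rw [hR, mem_vs]
    simp
  have hRT : img f R6 ⊆ T := by
    rw [hR]
    intro s hs
    simp only [Finset.mem_insert, Finset.mem_singleton] at hs
    rcases hs with rfl | rfl
    · exact ht₁
    · exact ht₂
  obtain ⟨h1, h2, h3⟩ := patch (T := T) (R := img f R6) (P := img f P6) hT hRT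
    (fun s hs => (hmemP s hs).1)
    (by unfold img P6; simp)
    hPT
    (by
      intro x y hxy
      by_cases hx : ∃ i, x = f i
      · by_cases hy : ∃ j, y = f j
        · obtain ⟨i, rfl⟩ := hx
          obtain ⟨j, rfl⟩ := hy
          rw [cnt_img hfi, cnt_img hfi]
          rcases count6 i j (fun e => hxy (by rw [e])) with h | ⟨h, h'⟩
          · exact Or.inl h
          · refine Or.inr ⟨?_, h'⟩
            by_contra hne
            obtain ⟨s, hs, h4, h5⟩ := cnt_pos.1 (Nat.pos_of_ne_zero hne)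
            rcases h with ⟨h6, h7⟩ | ⟨h6, h7⟩
            · exact hnot _ (hfA i h6) _ (hfB j h7) s hs h4 h5
            · exact hnot _ (hfA j h7) _ (hfB i h6) s hs h5 h4
        · push Not at hy
          left
          rw [cnt_img_right _ hy, cnt_img_right _ hy]
      · push Not at hx
        left
        rw [cnt_img_left _ hx, cnt_img_left _ hx])
    (hL_img hfi P6 chain6)
    (fun s hs => by
      obtain ⟨-, ⟨x, hx, hx1⟩, -, -⟩ := hmemP s hs
      exact ⟨x, hx, (hvsR x).2 (Or.inl hx1)⟩)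
    (by
      intro x hx hxT
      obtain ⟨s, hs, hxs⟩ := mem_vs.1 hx
      exact (hvsR x).2 ((hmemP s hs).2.2.2 x hxs))
  refine ⟨(T \ img f R6) ∪ img f P6, h1, ?_, ?_, h3, ?_⟩
  · rw [h2]
    ext x
    rw [Finset.mem_union]
    constructor
    · rintro (h | h)
      · exact h
      · obtain ⟨s, hs, hxs⟩ := mem_vs.1 h
        rcases (hmemP s hs).2.2.2 x hxs with h4 | h4
        · exact mem_vs.2 ⟨t₁, ht₁, h4⟩
        · exact mem_vs.2 ⟨t₂, ht₂, h4⟩
    · exact fun h => Or.inl h
  · have h4 : (img f P6).card = 6 := by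
      unfold img
      rw [Finset.card_image_of_injective _ (Finset.image_injective hfi)]
      decide +kernel
    have h5 : Disjoint (T \ img f R6) (img f P6) := by
      rw [Finset.disjoint_left]
      intro s hs hs'
      exact hPT s hs' (Finset.mem_sdiff.1 hs).1
    have h6 : (img f R6).card = 2 := by
      rw [hR, Finset.card_pair htne]
    have h7 := Finset.card_le_card hRT
    rw [Finset.card_union_of_disjoint h5, h4, Finset.card_sdiff_of_subset hRT, h6]
    omega
  · refine ⟨d00, {a0, b0, b1}, Finset.mem_union_right _ ?_, by simp, by simp⟩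
    unfold img
    rw [Finset.mem_image]
    refine ⟨{0, 3, 4}, by decide, ?_⟩
    simp [hf]

end Pool.Agent.Y393.SG
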