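import Pool.Agent.Y393.SG.Low
import Pool.Agent.Y393.SG.SubHan
import Pool.Agent.Y395.SG.Emb
import Pool.Agent.Y395.SG.ColEdg
import Pool.Agent.Y395.SG.Quo
import Pool.Agent.Y587.SG.Gir
import Pool.Agent.Y587.SG.W3
import Pool.Agent.H7R2.LG.Dense
import Pool.Agent.H967G.Turan

/-!
Project SG: assembly.
-/

set_option autoImplicit false

namespace Pool.Agent.Y393.SG

open SimpleGraph Pool.Agent.H968R3 Pool.TH815.GR

theorem emb : S_EMB := Pool.Agent.Y395.SG.t_EMB t_SUB t_HAN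

/-- The exponent `c` is admissible for girth `l`: there is a constant `C > 0` such that for all
`g ≥ 1` every finite graph of girth at least `l` that embeds on a surface of Euler genus `g` is
`(0, ⌊C g ^ c⌋)`-colourable. -/
def Adm (l : ℕ) (c : ℝ) : Prop :=
  ∃ C : ℝ, 0 < C ∧ ∀ g : ℕ, 1 ≤ g → ∀ (V : Type) [Finite V] (G : SimpleGraph V),
    (l : ℕ∞) ≤ G.egirth → EmbedsEulerGenus G g → ZeroCol G ⌊C * (g : ℝ) ^ c⌋₊

theorem zeroCol_mono {V : Type} {G : SimpleGraph V} {a b : ℕ} (h : a ≤ b) (hG : ZeroCol G a) :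
    ZeroCol G b := by
  obtain ⟨I, h1, h2⟩ := hG
  exact ⟨I, h1, fun v hv => (h2 v hv).trans h⟩

/-- The upper bound. -/
theorem upper {m l : ℕ} (hm : 1 ≤ m) (hl : 6 * m + 1 ≤ l) {g : ℕ} (hg : 1 ≤ g) (V : Type)
    [Finite V] (G : SimpleGraph V) (hgir : (l : ℕ∞) ≤ G.egirth) (hemb : EmbedsEulerGenus G g) :
    ZeroCol G ⌊29 * (g : ℝ) ^ (1 / ((m : ℝ) + 1))⌋₊ := by
  have hgir' : ((6 * m : ℕ) : ℕ∞) < G.egirth := by
    refine lt_of_lt_of_le ?_ hgir
    exact_mod_cast (by omega : 6 * m < l)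
  have hg1 : (1 : ℝ) ≤ (g : ℝ) := by exact_mod_cast hg
  set x : ℝ := (g : ℝ) ^ (1 / ((m : ℝ) + 1)) with hx
  have hx1 : 1 ≤ x := Real.one_le_rpow hg1 (by positivity)
  have hxr : x ^ (m + 1) = (g : ℝ) := by
    rw [hx, ← Real.rpow_natCast, ← Real.rpow_mul (by linarith)]
    have : 1 / ((m : ℝ) + 1) * ((m + 1 : ℕ) : ℝ) = 1 := by push_cast; field_simp
    rw [this, Real.rpow_one]
  set k := ⌊29 * x⌋₊ with hk
  have hk1 : 28 * x ≤ (k : ℝ) := by
    have := Nat.lt_floor_add_one (29 * x)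
    rw [← hk] at this
    linarith
  have hk27 : 27 ≤ k := by
    have : (27 : ℝ) ≤ (k : ℝ) := by linarith
    exact_mod_cast this
  apply zeroCol_of_lt Pool.Agent.Y395.SG.t_QUO hm hk27 hgir' hemb
  have h1 : (28 * x) ^ (m + 1) ≤ (k : ℝ) ^ (m + 1) := pow_le_pow_left₀ (by linarith) hk1 _
  rw [mul_pow, hxr] at h1
  have h2 : (29 : ℝ) ≤ 28 ^ (m + 1) := by
    calc (29 : ℝ) ≤ 28 ^ 2 := by norm_num
      _ ≤ 28 ^ (m + 1) := pow_le_pow_right₀ (by norm_num) (by omega)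
  have h3 : (28 : ℝ) * g < (k : ℝ) ^ (m + 1) := by nlinarith
  exact_mod_cast h3

theorem adm_mono {l : ℕ} {c c' : ℝ} (h : c ≤ c') (hc : Adm l c) : Adm l c' := by
  obtain ⟨C, hC, h1⟩ := hc
  refine ⟨C, hC, fun g hg V _ G h2 h3 => zeroCol_mono ?_ (h1 g hg V G h2 h3)⟩
  apply Nat.floor_le_floor
  have hg1 : (1 : ℝ) ≤ (g : ℝ) := by exact_mod_cast hg
  exact mul_le_mul_of_nonneg_left (Real.rpow_le_rpow_of_exponent_le hg1 h) hC.le

/-- If `β` is sharp then no smaller exponent is admissible. -/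
theorem le_of_adm {l : ℕ} {c β : ℝ} (h : SurfForm l β) (hc : Adm l c) : β ≤ c := by
  by_contra hcon
  push Not at hcon
  obtain ⟨κ, hκ, g₀, h1⟩ := h
  obtain ⟨C, hC, h2⟩ := hc
  obtain ⟨g₁, hg₁⟩ := exists_nat_ge ((C / κ) ^ (1 / (β - c)))
  set g := max (max g₀ g₁) 1 with hg
  have hg1 : 1 ≤ g := le_max_right _ _
  have hg1' : (1 : ℝ) ≤ (g : ℝ) := by exact_mod_cast hg1
  have hgpos : (0 : ℝ) < g := by linarith
  obtain ⟨V, hV, G, h3, h4, h5⟩ := h1 g (le_trans (le_max_left _ _) (le_max_left _ _))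
  apply h5
  refine zeroCol_mono ?_ (h2 g hg1 V G h3 h4)
  apply Nat.floor_le_floor
  have h6 : (C / κ) ^ (1 / (β - c)) ≤ (g : ℝ) :=
    hg₁.trans (by exact_mod_cast (le_trans (le_max_right _ _) (le_max_left _ _) : g₁ ≤ g))
  have h7 : C / κ ≤ (g : ℝ) ^ (β - c) := by
    have hd : 0 < β - c := by linarith
    calc C / κ = ((C / κ) ^ (1 / (β - c))) ^ (β - c) := by
          rw [← Real.rpow_mul (by positivity)]
          have : 1 / (β - c) * (β - c) = 1 := by field_simp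
          rw [this, Real.rpow_one]
      _ ≤ (g : ℝ) ^ (β - c) := Real.rpow_le_rpow (by positivity) h6 hd.le
  have h8 : (g : ℝ) ^ β = (g : ℝ) ^ (β - c) * (g : ℝ) ^ c := by
    rw [← Real.rpow_add hgpos]
    congr 1; ring
  rw [h8]
  rw [div_le_iff₀ hκ] at h7
  calc C * (g : ℝ) ^ c ≤ ((g : ℝ) ^ (β - c) * κ) * (g : ℝ) ^ c :=
        mul_le_mul_of_nonneg_right h7 (by positivity)
    _ = _ := by ring

/-- Dense graphs of girth greater than `2 m` give lower bounds for all `l ≤ 6 m + 6`. -/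
theorem surf_of_dense {m l : ℕ} {α : ℝ} (hα : 0 < α) (hl : l ≤ 6 * m + 6)
    (h : DenseForm m α) : SurfForm l (α / (1 + α)) :=
  surfForm_of_regForm emb Pool.Agent.Y587.SG.t_GIR Pool.Agent.Y395.SG.t_COL
    Pool.Agent.Y395.SG.t_EDG hα hl (regForm_of_denseForm hα h)

/-- The equivalence of the sharpness of the exponent `α / (1 + α)` and of the existence of
graphs of girth greater than `2 m` with `c n ^ (1 + α)` edges. -/
theorem equiv {m l : ℕ} {α : ℝ} (hm : 1 ≤ m) (hα : 0 < α) (hl : 6 * m + 1 ≤ l)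
    (hl2 : l ≤ 6 * m + 6) : SurfForm l (α / (1 + α)) ↔ DenseForm m α :=
  ⟨denseForm_of_surfForm Pool.Agent.Y395.SG.t_QUO hm hα hl, surf_of_dense hα hl2⟩

/-- Upper bounds for the number of edges of graphs of girth greater than `2 m` give upper bounds
for the colouring problem. -/
theorem adm_of_ex {m l : ℕ} {α C : ℝ} (hm : 1 ≤ m) (hα : 0 < α) (hC : 0 < C)
    (hl : 6 * m + 1 ≤ l)
    (h : ∀ (n : ℕ) (G : SimpleGraph (Fin n)), ((2 * m : ℕ) : ℕ∞) < G.egirth →
      (G.edgeSet.ncard : ℝ) ≤ C * (n : ℝ) ^ (1 + α)) : Adm l (α / (1 + α)) := by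
  classical
  set β : ℝ := α / (1 + α) with hβ
  have hβ0 : 0 < β := by positivity
  set K : ℝ := ((2 * C) ^ (1 / α) * 28) ^ β with hK
  have hK0 : 0 < K := by positivity
  refine ⟨K + 27, by positivity, fun g hg V _ G hgir hemb => ?_⟩
  have hgir' : ((6 * m : ℕ) : ℕ∞) < G.egirth := by
    refine lt_of_lt_of_le ?_ hgir
    exact_mod_cast (by omega : 6 * m < l)
  by_contra hcon
  set k := ⌊(K + 27) * (g : ℝ) ^ β⌋₊ with hk
  have hg1 : (1 : ℝ) ≤ (g : ℝ) := by exact_mod_cast hg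
  have hg0 : (0 : ℝ) < g := by linarith
  have hgb : 1 ≤ (g : ℝ) ^ β := Real.one_le_rpow hg1 hβ0.le
  have hk27 : 27 ≤ k := by
    rw [hk, Nat.le_floor_iff (by positivity)]
    push_cast
    nlinarith
  have hklt : K * (g : ℝ) ^ β < k + 1 := by
    have h1 := Nat.lt_floor_add_one ((K + 27) * (g : ℝ) ^ β)
    rw [← hk] at h1
    nlinarith
  obtain ⟨N, Q, hN, h1, h2, h3⟩ := exists_quot Pool.Agent.Y395.SG.t_QUO hm hk27 hgir' hemb hcon
  have hNpos : (0 : ℝ) < N := by exact_mod_cast hN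
  have hk1pos : (0 : ℝ) < (k : ℝ) + 1 := by positivity
  have h4 : ((k : ℝ) + 1) * N ≤ 2 * (Q.edgeSet.ncard : ℝ) := by
    have h5 : (k + 1) * N ≤ 2 * Q.edgeFinset.card := by
      rw [← Q.sum_degrees_eq_twice_card_edges]
      have h6 := Finset.card_nsmul_le_sum (Finset.univ : Finset (Fin N)) (fun v => Q.degree v)
        (k + 1) (by
          intro v _
          have := h2 v
          rw [← Q.coe_neighborFinset, Set.ncard_coe_finset] at this
          exact this)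
      rw [Finset.card_univ, Fintype.card_fin, smul_eq_mul, mul_comm] at h6
      exact h6
    have h6 : Q.edgeSet.ncard = Q.edgeFinset.card := by
      rw [← SimpleGraph.coe_edgeFinset, Set.ncard_coe_finset]
    rw [h6]
    exact_mod_cast h5
  have h5 := h N Q h1
  have h6 : (k : ℝ) + 1 ≤ 2 * C * (N : ℝ) ^ α := by
    rw [Real.rpow_add hNpos, Real.rpow_one] at h5
    have h7 : ((k : ℝ) + 1) * N ≤ 2 * C * (N : ℝ) ^ α * N := by nlinarith
    exact le_of_mul_le_mul_right h7 hNpos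
  have h7 : ((k : ℝ) + 1) ^ (1 / α) ≤ (2 * C) ^ (1 / α) * N := by
    calc ((k : ℝ) + 1) ^ (1 / α) ≤ (2 * C * (N : ℝ) ^ α) ^ (1 / α) :=
          Real.rpow_le_rpow hk1pos.le h6 (by positivity)
      _ = (2 * C) ^ (1 / α) * N := by
          rw [Real.mul_rpow (by positivity) (by positivity), ← Real.rpow_mul hNpos.le]
          have : α * (1 / α) = 1 := by field_simp
          rw [this, Real.rpow_one]
  have h8 : ((k : ℝ) + 1) ^ (1 / α + 1) ≤ (2 * C) ^ (1 / α) * 28 * g := by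
    rw [Real.rpow_add hk1pos, Real.rpow_one]
    have h9 : ((k : ℝ) + 1) * N ≤ 28 * g := by exact_mod_cast h3
    calc ((k : ℝ) + 1) ^ (1 / α) * (k + 1) ≤ (2 * C) ^ (1 / α) * N * (k + 1) :=
          mul_le_mul_of_nonneg_right h7 hk1pos.le
      _ = (2 * C) ^ (1 / α) * ((k + 1) * N) := by ring
      _ ≤ (2 * C) ^ (1 / α) * (28 * g) := mul_le_mul_of_nonneg_left h9 (by positivity)
      _ = _ := by ring
  have h9 : (k : ℝ) + 1 ≤ K * (g : ℝ) ^ β := by
    calc (k : ℝ) + 1 = (((k : ℝ) + 1) ^ (1 / α + 1)) ^ β := by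
          rw [← Real.rpow_mul hk1pos.le]
          have : (1 / α + 1) * β = 1 := by rw [hβ]; field_simp
          rw [this, Real.rpow_one]
      _ ≤ ((2 * C) ^ (1 / α) * 28 * g) ^ β := Real.rpow_le_rpow (by positivity) h8 hβ0.le
      _ = K * (g : ℝ) ^ β := by
          rw [hK, Real.mul_rpow (by positivity) hg0.le]
  linarith

/-- The complete graphs: the girth conjecture for `1`. -/
theorem dense_one : DenseForm 1 1 := by
  refine ⟨1 / 4, by norm_num, 2, fun n hn => ⟨⊤, ?_, ?_⟩⟩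
  · rw [egirth_iff]
    intro v p hp
    have := hp.three_le_length
    omega
  · have h1 : (⊤ : SimpleGraph (Fin n)).edgeSet.ncard = n.choose 2 := by
      classical
      rw [← SimpleGraph.coe_edgeFinset, Set.ncard_coe_finset, SimpleGraph.card_edgeFinset_top_eq_card_choose_two,
        Fintype.card_fin]
    rw [h1, Nat.cast_choose_two]
    have h2 : (2 : ℝ) ≤ n := by exact_mod_cast hn
    have h3 : (n : ℝ) ^ ((1 : ℝ) + 1) = n * n := by
      rw [show (1 : ℝ) + 1 = ((2 : ℕ) : ℝ) by norm_num, Real.rpow_natCast]; ring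
    rw [h3]
    nlinarith

theorem dense_two : DenseForm 2 (1 / 2) := by
  obtain ⟨c, hc, N, h⟩ := Girth967.dense_graphs 2 (by norm_num)
  refine ⟨c, hc, N, fun n hn => ?_⟩
  obtain ⟨G, h1, h2⟩ := h n hn
  refine ⟨G, h1, ?_⟩
  have e : (1 : ℝ) / (Girth967.aexp ((2 + 1) / 2) : ℝ) = 1 / 2 := by
    norm_num [Girth967.aexp]
  rw [e] at h2
  exact h2

theorem dense_three : DenseForm 3 (1 / 3) := by
  obtain ⟨c, hc, N, h⟩ := Pool.Agent.Y587.SG.t_W3
  refine ⟨c, hc, N, fun n hn => ?_⟩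
  obtain ⟨G, h1, h2⟩ := h n hn
  exact ⟨G, by exact_mod_cast h1, h2⟩

theorem dense_four' (m : ℕ) (hm : 4 ≤ m) : DenseForm m (3 / ((4 * m + 4 - m / 4 : ℕ) : ℝ)) := by
  obtain ⟨c, hc, h⟩ := Pool.Agent.H7R2.LG.dense_four m hm
  rw [Filter.eventually_atTop] at h
  obtain ⟨N, hN⟩ := h
  exact ⟨c, hc, N, hN⟩

/-- Girth `7` to `24`: the exponent `1 / (m + 1)`, `m = ⌊(l - 1) / 6⌋`, is sharp. -/
theorem sharp {m l : ℕ} (hm : 1 ≤ m) (hm3 : m ≤ 3) (hl : l ≤ 6 * m + 6) :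
    SurfForm l (1 / ((m : ℝ) + 1)) := by
  have key : DenseForm m (1 / (m : ℝ)) := by
    interval_cases m
    · simpa using dense_one
    · simpa using dense_two
    · simpa using dense_three
  have h := surf_of_dense (α := 1 / (m : ℝ)) (by positivity) hl key
  have e : (1 / (m : ℝ)) / (1 + 1 / (m : ℝ)) = 1 / ((m : ℝ) + 1) := by
    have : (m : ℝ) ≠ 0 := by positivity
    field_simp
  rwa [e] at h

/-- A lower bound for all `l ≥ 7`. -/
theorem lower_all {l : ℕ} (hl : 7 ≤ l) {c : ℝ} (h : Adm l c) :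
    24 / (5 * (l : ℝ) + 61) ≤ c := by
  have hl7 : (7 : ℝ) ≤ l := by exact_mod_cast hl
  set m := (l - 1) / 6 with hm
  have hm1 : 1 ≤ m := by omega
  have hl1 : 6 * m + 1 ≤ l := by omega
  have hl2 : l ≤ 6 * m + 6 := by omega
  have hml : 6 * (m : ℝ) + 1 ≤ l := by exact_mod_cast hl1
  have hm0 : (1 : ℝ) ≤ m := by exact_mod_cast hm1
  rcases le_or_gt m 3 with h3 | h3
  · have h1 := le_of_adm (sharp hm1 h3 hl2) h
    refine le_trans ?_ h1
    rw [div_le_div_iff₀ (by positivity) (by positivity)]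
    linarith
  · have hD0' : (0 : ℝ) < ((4 * m + 4 - m / 4 : ℕ) : ℝ) := by
      exact_mod_cast (by omega : 0 < 4 * m + 4 - m / 4)
    have h1 := le_of_adm (surf_of_dense (div_pos (by norm_num) hD0') hl2 (dense_four' m h3)) h
    refine le_trans ?_ h1
    set D : ℝ := ((4 * m + 4 - m / 4 : ℕ) : ℝ) with hD
    have hD0 : 0 < D := hD0'
    have hD1 : 4 * D ≤ 15 * m + 19 := by
      rw [hD]
      have : 4 * (4 * m + 4 - m / 4) ≤ 15 * m + 19 := by omega
      exact_mod_cast this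
    have e : 3 / D / (1 + 3 / D) = 3 / (D + 3) := by field_simp
    rw [e, div_le_div_iff₀ (by positivity) (by positivity)]
    nlinarith

/-- Upper exponent -/
theorem adm_upper {l : ℕ} (hl : 7 ≤ l) : Adm l (1 / (((l + 5) / 6 : ℕ) : ℝ)) := by
  refine ⟨29, by norm_num, fun g hg V _ G h1 h2 => ?_⟩
  have h := upper (m := (l - 1) / 6) (by omega) (by omega : 6 * ((l - 1) / 6) + 1 ≤ l) hg V G h1 h2
  have e : (((l - 1) / 6 : ℕ) : ℝ) + 1 = (((l + 5) / 6 : ℕ) : ℝ) := by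
    have : (l + 5) / 6 = (l - 1) / 6 + 1 := by omega
    rw [this]; push_cast; ring
  rw [e] at h
  exact h

/-- Girth `7` to `24`: the admissible exponents. -/
theorem adm_iff {l : ℕ} (hl : 7 ≤ l) (hl2 : l ≤ 24) (c : ℝ) :
    Adm l c ↔ 1 / (((l + 5) / 6 : ℕ) : ℝ) ≤ c := by
  constructor
  · intro h
    have h1 := le_of_adm (sharp (m := (l - 1) / 6) (by omega) (by omega)
      (by omega : l ≤ 6 * ((l - 1) / 6) + 6)) h
    have e : (((l - 1) / 6 : ℕ) : ℝ) + 1 = (((l + 5) / 6 : ℕ) : ℝ) := by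
      have : (l + 5) / 6 = (l - 1) / 6 + 1 := by omega
      rw [this]; push_cast; ring
    rw [e] at h1
    exact h1
  · intro h
    exact adm_mono h (adm_upper hl)

end Pool.Agent.Y393.SG
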