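import Pool.Agent.Y393.SG.Stm

/-!
Project SG: replacing triangles of a triangulated surface.
-/

set_option autoImplicit false

namespace Pool.Agent.Y393.SG

open SimpleGraph Pool.Agent.H968R3

theorem mem_vs {T : Finset (Finset ℕ)} {x : ℕ} : x ∈ vs T ↔ ∃ t ∈ T, x ∈ t := by
  simp [vs]

theorem cnt_pos {T : Finset (Finset ℕ)} {x y : ℕ} : 0 < cnt T x y ↔ ∃ t ∈ T, x ∈ t ∧ y ∈ t := by
  unfold cnt
  rw [Finset.card_pos]
  constructor
  · rintro ⟨t, ht⟩
    rw [Finset.mem_filter] at ht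
    exact ⟨t, ht.1, ht.2⟩
  · rintro ⟨t, h1, h2⟩
    exact ⟨t, Finset.mem_filter.2 ⟨h1, h2⟩⟩

theorem skel_iff {T : Finset (Finset ℕ)} {x y : ℕ} : (skel T).Adj x y ↔ x ≠ y ∧ 0 < cnt T x y := by
  rw [cnt_pos]
  rfl

theorem reach_lift {V : Type} {G H : SimpleGraph V} (h : ∀ u v, G.Adj u v → H.Reachable u v)
    {x y : V} (hxy : G.Reachable x y) : H.Reachable x y := by
  obtain ⟨p⟩ := hxy
  induction p with
  | nil => exact Reachable.refl _
  | cons h1 _ ih => exact (h _ _ h1).trans ih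

theorem patch {T R P : Finset (Finset ℕ)} (hT : Surf T) (hR : R ⊆ T) (hP3 : ∀ t ∈ P, t.card = 3)
    (hPne : P.Nonempty) (hPT : ∀ t ∈ P, t ∉ T)
    (hE : ∀ x y, x ≠ y → cnt P x y = cnt R x y ∨ (cnt T x y = 0 ∧ cnt P x y = 2))
    (hL : ∀ w x y, (skel P).Adj w x → (skel P).Adj w y → (link P w).Reachable x y)
    (hN : ∀ t ∈ P, ∃ x ∈ t, x ∈ vs R) (hM : ∀ x ∈ vs P, x ∈ vs T → x ∈ vs R) :
    Surf ((T \ R) ∪ P) ∧ vs ((T \ R) ∪ P) = vs T ∪ vs P ∧
      (∀ x y, (skel T).Adj x y → (skel ((T \ R) ∪ P)).Adj x y) := by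
  classical
  set T' := (T \ R) ∪ P with hT'
  have hcount : ∀ x y, cnt T' x y + cnt R x y = cnt T x y + cnt P x y := by
    intro x y
    unfold cnt
    have h1 : T'.filter (fun t => x ∈ t ∧ y ∈ t) =
        (T.filter (fun t => x ∈ t ∧ y ∈ t) \ R.filter (fun t => x ∈ t ∧ y ∈ t)) ∪
          P.filter (fun t => x ∈ t ∧ y ∈ t) := by
      ext t
      simp only [hT', Finset.mem_filter, Finset.mem_union, Finset.mem_sdiff]
      tauto
    have h2 : R.filter (fun t => x ∈ t ∧ y ∈ t) ⊆ T.filter (fun t => x ∈ t ∧ y ∈ t) :=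
      Finset.filter_subset_filter _ hR
    rw [h1, Finset.card_union_of_disjoint]
    · have h3 := Finset.card_sdiff_add_card_eq_card h2
      omega
    · rw [Finset.disjoint_left]
      intro t ht ht'
      rw [Finset.mem_sdiff, Finset.mem_filter] at ht
      rw [Finset.mem_filter] at ht'
      exact hPT t ht'.1 ht.1.1
  have hRT : ∀ x y, cnt R x y ≤ cnt T x y := fun x y =>
    Finset.card_le_card (Finset.filter_subset_filter _ hR)
  have hskel : ∀ x y, (skel T).Adj x y → (skel T').Adj x y := by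
    intro x y h
    rw [skel_iff] at h ⊢
    refine ⟨h.1, ?_⟩
    have h1 := hcount x y
    rcases hE x y h.1 with h2 | ⟨h2, h3⟩
    · omega
    · omega
  have hPT' : ∀ w, link P w ≤ link T' w := by
    rintro w x y ⟨h1, h2, h3, t, ht, h4⟩
    exact ⟨h1, h2, h3, t, by rw [hT']; exact Finset.mem_union_right _ ht, h4⟩
  have hRP : ∀ x y, x ≠ y → 0 < cnt R x y → (skel P).Adj x y := by
    intro x y hxy h
    rw [skel_iff]
    refine ⟨hxy, ?_⟩
    have h1 := hRT x y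
    rcases hE x y hxy with h2 | ⟨h2, h3⟩ <;> omega
  have hlinkT : ∀ w u v, (link T w).Adj u v → (link T' w).Reachable u v := by
    rintro w u v ⟨h1, h2, h3, t, ht, h4, h5, h6⟩
    by_cases htR : t ∈ R
    · have h7 := hRP w u h2.symm (cnt_pos.2 ⟨t, htR, h4, h5⟩)
      have h8 := hRP w v h3.symm (cnt_pos.2 ⟨t, htR, h4, h6⟩)
      exact (hL w u v h7 h8).mono (hPT' w)
    · refine SimpleGraph.Adj.reachable ?_
      exact ⟨h1, h2, h3, t, by rw [hT']; exact Finset.mem_union_left _ (Finset.mem_sdiff.2 ⟨ht, htR⟩),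
        h4, h5, h6⟩
  have hsplit : ∀ w x, (skel T').Adj w x → (skel T).Adj w x ∨ (skel P).Adj w x := by
    rintro w x ⟨h1, t, ht, h2, h3⟩
    rw [hT', Finset.mem_union, Finset.mem_sdiff] at ht
    rcases ht with ht | ht
    · exact Or.inl ⟨h1, t, ht.1, h2, h3⟩
    · exact Or.inr ⟨h1, t, ht, h2, h3⟩
  have hmid : ∀ w x y, (skel T).Adj w x → (skel P).Adj w y → ∃ z, (skel T).Adj w z ∧
      (skel P).Adj w z := by
    rintro w x y ⟨-, t, ht, h1, -⟩ ⟨-, t', ht', h2, -⟩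
    have h3 := hM w (mem_vs.2 ⟨t', ht', h2⟩) (mem_vs.2 ⟨t, ht, h1⟩)
    obtain ⟨s, hs, hws⟩ := mem_vs.1 h3
    have h4 : 1 < s.card := by rw [hT.card_eq s (hR hs)]; norm_num
    obtain ⟨z, hz, hzw⟩ := Finset.exists_mem_ne h4 w
    refine ⟨z, ⟨hzw.symm, s, hR hs, hws, hz⟩, hRP w z hzw.symm (cnt_pos.2 ⟨s, hs, hws, hz⟩)⟩
  have hvs : vs T' = vs T ∪ vs P := by
    ext x
    rw [Finset.mem_union, mem_vs, mem_vs, mem_vs]
    constructor
    · rintro ⟨t, ht, hx⟩
      rw [hT', Finset.mem_union, Finset.mem_sdiff] at ht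
      rcases ht with ht | ht
      · exact Or.inl ⟨t, ht.1, hx⟩
      · exact Or.inr ⟨t, ht, hx⟩
    · rintro (⟨t, ht, hx⟩ | ⟨t, ht, hx⟩)
      · by_cases htR : t ∈ R
        · have h4 : 1 < t.card := by rw [hT.card_eq t ht]; norm_num
          obtain ⟨z, hz, hzw⟩ := Finset.exists_mem_ne h4 x
          obtain ⟨-, s, hs, hxs, -⟩ := hRP x z hzw.symm (cnt_pos.2 ⟨t, htR, hx, hz⟩)
          exact ⟨s, by rw [hT']; exact Finset.mem_union_right _ hs, hxs⟩
        · exact ⟨t, by rw [hT']; exact Finset.mem_union_left _ (Finset.mem_sdiff.2 ⟨ht, htR⟩), hx⟩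
      · exact ⟨t, by rw [hT']; exact Finset.mem_union_right _ ht, hx⟩
  refine ⟨⟨?_, ?_, ?_, ?_, ?_⟩, hvs, hskel⟩
  · exact hPne.mono (by rw [hT']; exact Finset.subset_union_right)
  · intro t ht
    rw [hT', Finset.mem_union, Finset.mem_sdiff] at ht
    rcases ht with ht | ht
    · exact hT.card_eq t ht.1
    · exact hP3 t ht
  · intro x y h
    rw [skel_iff] at h
    have h1 := hcount x y
    have h2 := hRT x y
    rcases hE x y h.1 with h3 | ⟨h3, h4⟩
    · have h5 : (skel T).Adj x y := by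
        rw [skel_iff]
        exact ⟨h.1, by omega⟩
      have := hT.edge x y h5
      omega
    · omega
  · intro w x y hx hy
    rcases hsplit w x hx with h1 | h1 <;> rcases hsplit w y hy with h2 | h2
    · exact reach_lift (hlinkT w) (hT.link w x y h1 h2)
    · obtain ⟨z, h3, h4⟩ := hmid w x y h1 h2
      exact (reach_lift (hlinkT w) (hT.link w x z h1 h3)).trans ((hL w z y h4 h2).mono (hPT' w))
    · obtain ⟨z, h3, h4⟩ := hmid w y x h2 h1
      exact ((hL w x z h1 h4).mono (hPT' w)).trans (reach_lift (hlinkT w) (hT.link w z y h3 h2))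
    · exact (hL w x y h1 h2).mono (hPT' w)
  · have h1 : ∀ x ∈ vs T', ∃ z ∈ vs T, (skel T').Reachable x z := by
      intro x hx
      obtain ⟨t, ht, hxt⟩ := mem_vs.1 hx
      rw [hT', Finset.mem_union, Finset.mem_sdiff] at ht
      rcases ht with ht | ht
      · exact ⟨x, mem_vs.2 ⟨t, ht.1, hxt⟩, Reachable.refl _⟩
      · obtain ⟨z, hz, hzR⟩ := hN t ht
        obtain ⟨s, hs, hzs⟩ := mem_vs.1 hzR
        refine ⟨z, mem_vs.2 ⟨s, hR hs, hzs⟩, ?_⟩
        by_cases hxz : x = z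
        · rw [hxz]
        · refine SimpleGraph.Adj.reachable ?_
          exact ⟨hxz, t, by rw [hT']; exact Finset.mem_union_right _ ht, hxt, hz⟩
    intro x hx y hy
    obtain ⟨z, hz, hxz⟩ := h1 x hx
    obtain ⟨z', hz', hyz⟩ := h1 y hy
    have h2 := (hT.conn z hz z' hz').mono (fun a b h => hskel a b h)
    exact (hxz.trans h2).trans hyz.symm

/-- concrete patches: `P₀`, `R₀` on `Fin n`, moved by an injective map `f` -/
def img {n : ℕ} (f : Fin n → ℕ) (P : Finset (Finset (Fin n))) : Finset (Finset ℕ) :=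
  P.image (fun t => t.image f)

theorem mem_image_inj {n : ℕ} {f : Fin n → ℕ} (hf : Function.Injective f) {t : Finset (Fin n)}
    {i : Fin n} : f i ∈ t.image f ↔ i ∈ t := by
  rw [Finset.mem_image]
  constructor
  · rintro ⟨j, hj, h⟩
    rwa [← hf h]
  · intro h
    exact ⟨i, h, rfl⟩

theorem cnt_img {n : ℕ} {f : Fin n → ℕ} (hf : Function.Injective f) (P : Finset (Finset (Fin n)))
    (i j : Fin n) : cnt (img f P) (f i) (f j) = (P.filter (fun t => i ∈ t ∧ j ∈ t)).card := by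
  unfold cnt img
  rw [Finset.filter_image, Finset.card_image_of_injective _ (Finset.image_injective hf)]
  congr 1
  ext t
  simp only [Finset.mem_filter, mem_image_inj hf]

theorem cnt_img_left {n : ℕ} {f : Fin n → ℕ} (P : Finset (Finset (Fin n))) {x y : ℕ}
    (hx : ∀ i, x ≠ f i) : cnt (img f P) x y = 0 := by
  by_contra h
  obtain ⟨t, ht, h1, h2⟩ := cnt_pos.1 (Nat.pos_of_ne_zero h)
  unfold img at ht
  rw [Finset.mem_image] at ht
  obtain ⟨s, hs, rfl⟩ := ht
  rw [Finset.mem_image] at h1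
  obtain ⟨i, -, rfl⟩ := h1
  exact hx i rfl

theorem cnt_img_right {n : ℕ} {f : Fin n → ℕ} (P : Finset (Finset (Fin n))) {x y : ℕ}
    (hy : ∀ i, y ≠ f i) : cnt (img f P) x y = 0 := by
  by_contra h
  obtain ⟨t, ht, h1, h2⟩ := cnt_pos.1 (Nat.pos_of_ne_zero h)
  unfold img at ht
  rw [Finset.mem_image] at ht
  obtain ⟨s, hs, rfl⟩ := ht
  rw [Finset.mem_image] at h2
  obtain ⟨i, -, rfl⟩ := h2
  exact hy i rfl

/-- concrete link edge -/
def la {n : ℕ} (P : Finset (Finset (Fin n))) (w x y : Fin n) : Bool :=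
  decide (x ≠ y ∧ x ≠ w ∧ y ≠ w ∧ ∃ t ∈ P, w ∈ t ∧ x ∈ t ∧ y ∈ t)

/-- concrete neighbours -/
def na {n : ℕ} (P : Finset (Finset (Fin n))) (w x : Fin n) : Bool :=
  decide (w ≠ x ∧ ∃ t ∈ P, w ∈ t ∧ x ∈ t)

theorem link_img {n : ℕ} {f : Fin n → ℕ} (hf : Function.Injective f)
    (P : Finset (Finset (Fin n))) {w x y : Fin n} (h : la P w x y = true) :
    (link (img f P) (f w)).Adj (f x) (f y) := by
  unfold la at h
  rw [decide_eq_true_eq] at h
  obtain ⟨h1, h2, h3, t, ht, h4, h5, h6⟩ := h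
  exact ⟨hf.ne h1, hf.ne h2, hf.ne h3, t.image f, Finset.mem_image_of_mem _ ht,
    (mem_image_inj hf).2 h4, (mem_image_inj hf).2 h5, (mem_image_inj hf).2 h6⟩

theorem hL_img {n : ℕ} {f : Fin n → ℕ} (hf : Function.Injective f)
    (P : Finset (Finset (Fin n)))
    (h : ∀ w x y : Fin n, na P w x = true → na P w y = true → x = y ∨ la P w x y = true ∨
      (∃ z, la P w x z = true ∧ la P w z y = true) ∨
      ∃ z z', la P w x z = true ∧ la P w z z' = true ∧ la P w z' y = true) :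
    ∀ w x y, (skel (img f P)).Adj w x → (skel (img f P)).Adj w y →
      (link (img f P) w).Reachable x y := by
  intro w x y hx hy
  have hr : ∀ w x, (skel (img f P)).Adj w x → ∃ i j, w = f i ∧ x = f j ∧ na P i j = true := by
    rintro w x ⟨h1, t, ht, h2, h3⟩
    unfold img at ht
    rw [Finset.mem_image] at ht
    obtain ⟨s, hs, rfl⟩ := ht
    rw [Finset.mem_image] at h2 h3
    obtain ⟨i, hi, rfl⟩ := h2
    obtain ⟨j, hj, rfl⟩ := h3
    refine ⟨i, j, rfl, rfl, ?_⟩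
    unfold na
    rw [decide_eq_true_eq]
    exact ⟨fun e => h1 (by rw [e]), s, hs, hi, hj⟩
  obtain ⟨i, j, rfl, rfl, h1⟩ := hr w x hx
  obtain ⟨i', j', h2, rfl, h3⟩ := hr _ y hy
  have h4 : i = i' := hf h2
  subst h4
  rcases h i j j' h1 h3 with h5 | h5 | ⟨z, h5, h6⟩ | ⟨z, z', h5, h6, h7⟩
  · rw [h5]
  · exact (link_img hf P h5).reachable
  · exact (link_img hf P h5).reachable.trans (link_img hf P h6).reachable
  · exact ((link_img hf P h5).reachable.trans (link_img hf P h6).reachable).trans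
      (link_img hf P h7).reachable

/-- the triangles of the tube -/
def P6 : Finset (Finset (Fin 6)) :=
  {{0, 1, 4}, {0, 3, 4}, {1, 2, 5}, {1, 4, 5}, {0, 2, 3}, {2, 3, 5}}

def R6 : Finset (Finset (Fin 6)) := {{0, 1, 2}, {3, 4, 5}}

def P4 : Finset (Finset (Fin 4)) := {{0, 1, 3}, {1, 2, 3}, {0, 2, 3}}

def R4 : Finset (Finset (Fin 4)) := {{0, 1, 2}}

theorem chain4 : ∀ w x y : Fin 4, na P4 w x = true → na P4 w y = true →
    x = y ∨ la P4 w x y = true ∨ (∃ z, la P4 w x z = true ∧ la P4 w z y = true) ∨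
      ∃ z z', la P4 w x z = true ∧ la P4 w z z' = true ∧ la P4 w z' y = true := by
  decide +kernel

theorem chain6 : ∀ w x y : Fin 6, na P6 w x = true → na P6 w y = true →
    x = y ∨ la P6 w x y = true ∨ (∃ z, la P6 w x z = true ∧ la P6 w z y = true) ∨
      ∃ z z', la P6 w x z = true ∧ la P6 w z z' = true ∧ la P6 w z' y = true := by
  decide +kernel

theorem count4 : ∀ i j : Fin 4, i ≠ j →
    (P4.filter (fun t => i ∈ t ∧ j ∈ t)).card = (R4.filter (fun t => i ∈ t ∧ j ∈ t)).card ∨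
      ((i = 3 ∨ j = 3) ∧ (P4.filter (fun t => i ∈ t ∧ j ∈ t)).card = 2) := by
  decide +kernel

theorem count6 : ∀ i j : Fin 6, i ≠ j →
    (P6.filter (fun t => i ∈ t ∧ j ∈ t)).card = (R6.filter (fun t => i ∈ t ∧ j ∈ t)).card ∨
      (((i.val < 3 ∧ 3 ≤ j.val) ∨ (3 ≤ i.val ∧ j.val < 3)) ∧
        (P6.filter (fun t => i ∈ t ∧ j ∈ t)).card = 2) := by
  decide +kernel

theorem three_of_mem {t : Finset ℕ} (ht : t.card = 3) {x : ℕ} (hx : x ∈ t) :
    ∃ a b, t = {x, a, b} ∧ x ≠ a ∧ x ≠ b ∧ a ≠ b := by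
  have h1 : (t.erase x).card = 2 := by rw [Finset.card_erase_of_mem hx, ht]
  obtain ⟨a, b, hab, h2⟩ := Finset.card_eq_two.1 h1
  have ha : a ∈ t.erase x := by rw [h2]; simp
  have hb : b ∈ t.erase x := by rw [h2]; simp
  refine ⟨a, b, ?_, (Finset.ne_of_mem_erase ha).symm, (Finset.ne_of_mem_erase hb).symm, hab⟩
  rw [← Finset.insert_erase hx, h2]

end Pool.Agent.Y393.SG
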